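import Mathlib
import Pool.Agent.K4H74.SC.Core

/-!
# Regulators of Borel type: the definitions

The definitions of `Ext`, `G`, `emb`, `IsChr`, `Pair`, `logTerm`, `IsDetOn`, `lin`, `IsCC` are in
`Pool.Agent.K4H74.SC.Core`.
-/

set_option autoImplicit false
set_option linter.unusedSectionVars false

namespace Pool.Agent.Run7.h375.BE

open NumberField Pool.Agent.K4H74.SK

/-- `c` is a system of leading coefficients at `s = s₀` of the Artin L-functions
`L(s, χ) = exp (∑ χ(p^n) / (n N(p)^(n s)))`: if a product `∏ L(s, χ_i)^(k_i)`, with characters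
`χ_i` of Galois groups and integers `k_i`, is equal for `Re s > 1` to a function `f` which is
meromorphic on `ℂ`, then `∏ c(χ_i)^(k_i)` is the leading coefficient of `f` at `s = s₀`. -/
def IsLeadingAt (s₀ : ℂ) (c : Pair → ℂ) : Prop :=
  ∀ (m : ℕ) (x : Fin m → Pair) (k : Fin m → ℤ) (f : ℂ → ℂ), (∀ i, IsChr (x i).2) →
    (∀ z, MeromorphicAt f z) →
    (∀ s : ℂ, 1 < s.re → ∃ l : Fin m → ℂ, (∀ i, HasSum (logTerm (x i).2 s) (l i)) ∧
      f s = Complex.exp (∑ i, k i * l i)) →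
    ∏ i, c (x i) ^ k i = meromorphicTrailingCoeffAt f s₀

/-- `V ⊗ ℂ`: the functions on the embeddings of `L` into `ℂ`. -/
abbrev V (L : Type) [Field L] : Type := (L →+* ℂ) → ℂ

/-- The restriction: the function `τ ↦ a (τ ∘ f)` on the embeddings of `L`, for a function `a` on
the embeddings of `F` and a homomorphism `f : F → L`. For an automorphism `γ` of `L` this is the
action `γ · (a_τ) = (a_(τγ))`. -/
def pull {F L : Type} [Field F] [Field L] (f : F →+* L) (a : V F) : V L := fun τ => a (τ.comp f)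

/-- The trace: the function `σ ↦ ∑ b(τ)`, sum over the `τ` with `τ ∘ f = σ`. -/
noncomputable def push {F L : Type} [Field F] [Field L] (f : F →+* L) (b : V L) : V F :=
  fun σ => ∑ᶠ (τ : L →+* ℂ) (_ : τ.comp f = σ), b τ

/-- The rational subspace `P` has a `ℚ`-basis which is a `ℂ`-basis of the complex subspace `W`. -/
def IsRatForm {L : Type} [Field L] (P : Submodule ℚ (V L)) (W : Submodule ℂ (V L)) : Prop :=
  ∃ (n : ℕ) (b : Fin n → V L), LinearIndependent ℂ b ∧ Submodule.span ℂ (Set.range b) = W ∧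
    Submodule.span ℚ (Set.range b) = P

lemma plus_zero (k : ℕ) (L : Type) [Field L] : ∀ τ : L →+* ℂ,
    (0 : V L) (ComplexEmbedding.conjugate τ) = (-1) ^ (k - 1) * (0 : V L) τ := fun τ => by simp

lemma plus_add {k : ℕ} {L : Type} [Field L] {a b : V L}
    (ha : ∀ τ, a (ComplexEmbedding.conjugate τ) = (-1) ^ (k - 1) * a τ)
    (hb : ∀ τ, b (ComplexEmbedding.conjugate τ) = (-1) ^ (k - 1) * b τ) :
    ∀ τ, (a + b) (ComplexEmbedding.conjugate τ) = (-1) ^ (k - 1) * (a + b) τ := fun τ => by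
  rw [Pi.add_apply, ha τ, hb τ, Pi.add_apply, mul_add]

lemma plus_smul {k : ℕ} {L : Type} [Field L] (c : ℂ) {a : V L}
    (ha : ∀ τ, a (ComplexEmbedding.conjugate τ) = (-1) ^ (k - 1) * a τ) :
    ∀ τ, (c • a) (ComplexEmbedding.conjugate τ) = (-1) ^ (k - 1) * (c • a) τ := fun τ => by
  rw [Pi.smul_apply, ha τ, Pi.smul_apply, smul_eq_mul, smul_eq_mul]
  ring

/-- `V⁺ ⊗ ℂ`: the functions with `a(τ̄) = (-1)^(k-1) a(τ)`. -/
def VPlus (k : ℕ) (L : Type) [Field L] : Submodule ℂ (V L) where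
  carrier := {a | ∀ τ, a (ComplexEmbedding.conjugate τ) = (-1) ^ (k - 1) * a τ}
  zero_mem' := plus_zero k L
  add_mem' := plus_add
  smul_mem' c _ := plus_smul c

/-- The values of `a` are in `ℚ(k-1) = ℚ (2πi)^(k-1)`. -/
def RatVal (k : ℕ) {L : Type} [Field L] (a : V L) : Prop :=
  ∀ τ, ∃ q : ℚ, a τ = q * (2 * Real.pi * Complex.I) ^ (k - 1)

lemma ratVal_zero (k : ℕ) (L : Type) [Field L] : RatVal k (0 : V L) := fun τ => ⟨0, by simp⟩

lemma ratVal_add {k : ℕ} {L : Type} [Field L] {a b : V L} (ha : RatVal k a) (hb : RatVal k b) :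
    RatVal k (a + b) := fun τ => by
  obtain ⟨q, hq⟩ := ha τ
  obtain ⟨q', hq'⟩ := hb τ
  exact ⟨q + q', by rw [Pi.add_apply, hq, hq']; push_cast; ring⟩

lemma ratVal_smul {k : ℕ} {L : Type} [Field L] (c : ℚ) {a : V L} (ha : RatVal k a) :
    RatVal k (c • a) := fun τ => by
  obtain ⟨q, hq⟩ := ha τ
  exact ⟨c * q, by rw [Pi.smul_apply, hq, Rat.smul_def]; push_cast; ring⟩

lemma plus_smulQ {k : ℕ} {L : Type} [Field L] (c : ℚ) {a : V L}
    (ha : a ∈ VPlus k L) : c • a ∈ VPlus k L := fun τ => by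
  rw [Pi.smul_apply, ha τ, Pi.smul_apply, Rat.smul_def, Rat.smul_def]
  ring

/-- `B_L⁺`: the functions in `V⁺` with values in `ℚ(k-1)`. -/
def BPlus (k : ℕ) (L : Type) [Field L] : Submodule ℚ (V L) where
  carrier := {a | a ∈ VPlus k L ∧ RatVal k a}
  zero_mem' := ⟨(VPlus k L).zero_mem, ratVal_zero k L⟩
  add_mem' ha hb := ⟨(VPlus k L).add_mem ha.1 hb.1, ratVal_add ha.2 hb.2⟩
  smul_mem' c _ ha := ⟨plus_smulQ c ha.1, ratVal_smul c ha.2⟩

/-- A family of `ℚ`-subspaces `H(L)` of `V⁺ ⊗ ℂ`, for all number fields `L`, with the formal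
properties of the images of `K_(2k-1)(L) ⊗ ℚ` under Borel's regulator: `H(L)` has a `ℚ`-basis which
is a `ℂ`-basis of `V⁺ ⊗ ℂ`, and the family is functorial for the restriction and the trace. -/
structure RegSystem (k : ℕ) where
  /-- the image of `K_(2k-1)(L) ⊗ ℚ` -/
  H : ∀ (L : Type) [Field L] [NumberField L], Submodule ℚ (V L)
  /-- `H(L) ⊗ ℝ = V⁺` -/
  form : ∀ (L : Type) [Field L] [NumberField L], IsRatForm (H L) (VPlus k L)
  /-- restriction -/
  map : ∀ (F L : Type) [Field F] [NumberField F] [Field L] [NumberField L] (f : F →+* L)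
    (a : V F), a ∈ H F → pull f a ∈ H L
  /-- trace -/
  tr : ∀ (F L : Type) [Field F] [NumberField F] [Field L] [NumberField L] (f : F →+* L)
    (b : V L), b ∈ H L → push f b ∈ H F

variable {k : ℕ}

/-- `Φ` commutes with the action of `G` on `V⁺ ⊗ ℂ`. -/
def IsEquivariant (k : ℕ) {E : Ext} (Φ : V E.L → V E.L) : Prop :=
  ∀ (g : G E), ∀ a ∈ VPlus k E.L, Φ (pull (emb g) a) = pull (emb g) (Φ a)

/-- `Φ` maps `P` onto `Q`. -/
def MapsOnto {L : Type} [Field L] (P Q : Submodule ℚ (V L)) (Φ : V L → V L) : Prop :=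
  (∀ a ∈ P, Φ a ∈ Q) ∧ ∀ h ∈ Q, ∃ a ∈ P, Φ a = h

/-- The restriction of the linear map `Φ` to `V⁺ ⊗ ℂ` is the `ℂ`-linear extension of a
`ℚ[G]`-isomorphism from `B_L⁺` to `H(L)`. -/
def IsRegMap (S : RegSystem k) {E : Ext} (Φ : V E.L → V E.L) : Prop :=
  IsEquivariant k Φ ∧ MapsOnto (BPlus k E.L) (S.H E.L) Φ

lemma eig_zero {E : Ext} (χ : G E →* ℂˣ) (g : G E) :
    pull (emb g) (0 : V E.L) = ((χ g : ℂˣ) : ℂ) • (0 : V E.L) := by
  rw [smul_zero]; rfl

lemma eig_add {E : Ext} {χ : G E →* ℂˣ} {a b : V E.L}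
    (ha : ∀ g, pull (emb g) a = ((χ g : ℂˣ) : ℂ) • a)
    (hb : ∀ g, pull (emb g) b = ((χ g : ℂˣ) : ℂ) • b) (g : G E) :
    pull (emb g) (a + b) = ((χ g : ℂˣ) : ℂ) • (a + b) := by
  rw [smul_add, ← ha g, ← hb g]; rfl

lemma eig_smul {E : Ext} {χ : G E →* ℂˣ} (c : ℂ) {a : V E.L}
    (ha : ∀ g, pull (emb g) a = ((χ g : ℂˣ) : ℂ) • a) (g : G E) :
    pull (emb g) (c • a) = ((χ g : ℂˣ) : ℂ) • (c • a) := by
  rw [smul_comm, ← ha g]; rfl

/-- The `χ`-component of `V⁺ ⊗ ℂ`. -/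
def Eig (k : ℕ) {E : Ext} (χ : G E →* ℂˣ) : Submodule ℂ (V E.L) where
  carrier := {a | a ∈ VPlus k E.L ∧ ∀ g, pull (emb g) a = ((χ g : ℂˣ) : ℂ) • a}
  zero_mem' := ⟨(VPlus k E.L).zero_mem, eig_zero χ⟩
  add_mem' ha hb := ⟨(VPlus k E.L).add_mem ha.1 hb.1, eig_add ha.2 hb.2⟩
  smul_mem' c _ ha := ⟨(VPlus k E.L).smul_mem c ha.1, eig_smul c ha.2⟩

/-- The equality `(det H)^n = L*(1-k)^n (det B_L⁺)^n` of the `n`-th tensor powers of the
determinants over `ℚ[G]`: for every isomorphism `Φ` as above there is an element `x` of `ℚ[G]` with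
`χ(x) det(Φ | χ-component)^n = L*(χ⁻¹, 1-k)^n` for all characters `χ` of `G`. -/
def Equality (S : RegSystem k) (c : Pair → ℂ) (n : ℕ) (E : Ext) : Prop :=
  ∀ Φ : V E.L →ₗ[ℂ] V E.L, IsRegMap S Φ → ∃ x : G E → ℚ, ∀ (χ : G E →* ℂˣ) (r : ℂ),
    IsDetOn (Eig k χ) Φ r → (∑ᶠ g : G E, (x g : ℂ) * ((χ g : ℂˣ) : ℂ)) * r ^ n
      = c ⟨E, lin χ⁻¹⟩ ^ n

/-- The theorem of Siegel and Klingen at `s = 1-k`: `L(ψ, 1-k)^σ = L(ψ^σ, 1-k)` for the linear
characters `ψ` of totally real fields with the value `(-1)^k` at all complex conjugations. -/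
def SiegelKlingen (k : ℕ) (c : Pair → ℂ) : Prop :=
  ∀ (E : Ext) (ψ : G E →* ℂˣ), IsTotallyReal E.K → (∀ t : G E, IsCC t → ψ t = (-1) ^ k) →
    ∀ σ : ℂ ≃+* ℂ, σ (c ⟨E, lin ψ⟩) = c ⟨E, fun g => σ (lin ψ g)⟩

/-- The decomposition group of the ideal `P` of the integers of `L`. -/
def decompGroup {E : Ext} (P : Ideal (𝓞 E.L)) : Set (G E) :=
  {g | ∀ x y : 𝓞 E.L, (y : E.L) = emb g x → (y ∈ P ↔ x ∈ P)}

/-- The inertia group of the ideal `P` of the integers of `L`. -/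
def inertiaGroup {E : Ext} (P : Ideal (𝓞 E.L)) : Set (G E) :=
  {g | ∀ x y : 𝓞 E.L, (y : E.L) = emb g x → y - x ∈ P}

/-- `K` is totally complex and `L / K` is a cyclic extension, unramified at all primes, in which the
primes above `m` split completely. -/
def UnramifiedSplit (m : ℕ) (E : Ext) : Prop :=
  IsTotallyComplex E.K ∧ IsCyclic (G E) ∧ ∀ P : Ideal (𝓞 E.L), P.IsMaximal →
    (∀ g ∈ inertiaGroup P, g = 1) ∧ ((m : 𝓞 E.L) ∈ P → ∀ g ∈ decompGroup P, g = 1)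

/-- `K` is totally complex and `L / K` is a cyclic extension such that for some prime number `l` all
inertia groups, and the decomposition groups of the primes above `m`, are `l`-groups. -/
def PrimePower (m : ℕ) (E : Ext) : Prop :=
  IsTotallyComplex E.K ∧ IsCyclic (G E) ∧ ∃ l : ℕ, l.Prime ∧ ∀ P : Ideal (𝓞 E.L), P.IsMaximal →
    (∀ g ∈ inertiaGroup P, ∃ j : ℕ, g ^ (l ^ j) = 1) ∧
      ((m : 𝓞 E.L) ∈ P → ∀ g ∈ decompGroup P, ∃ j : ℕ, g ^ (l ^ j) = 1)

/-- `K` is neither totally real nor totally complex, `L / K` is cyclic of degree `4, 8, 16, …`, and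
the real places of `K` are unramified in `L` if `k` is odd, and ramified if `k` is even. -/
def Mixed (k : ℕ) (E : Ext) : Prop :=
  ¬ IsTotallyReal E.K ∧ ¬ IsTotallyComplex E.K ∧ IsCyclic (G E) ∧
    (∃ l : ℕ, Nat.card (G E) = 2 ^ (l + 2)) ∧ ∀ t : G E, IsCC t → (t = 1 ↔ Odd k)

end Pool.Agent.Run7.h375.BE
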