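import Mathlib
import Pool.Agent.K4H74.SC.Reg

/-!
# Rational structures of complex representations, and the determinants of their isomorphisms
-/

set_option autoImplicit false
set_option linter.unusedSectionVars false

namespace Pool.Agent.Run7.h375.BE

open Pool.Agent.K4H74.SC
open Pool.Agent.K4H74.ST (IsChar)

section form

variable {W : Type} [AddCommGroup W] [Module ℂ W] [Module ℚ W] [IsScalarTower ℚ ℂ W]

/-- `P` is a rational structure of the complex vector space `W` -/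
def IsForm (P : Submodule ℚ W) : Prop :=
  ∃ (n : ℕ) (b : Module.Basis (Fin n) ℂ W), Submodule.span ℚ (Set.range b) = P

lemma rat_smul (q : ℚ) (w : W) : q • w = ((q : ℚ) : ℂ) • w := by
  have h : ((q : ℚ) : ℂ) = q • (1 : ℂ) := by rw [Rat.smul_def, mul_one]
  rw [h, smul_assoc, one_smul]

/-- an endomorphism which preserves a rational structure has rational trace -/
lemma trace_form {P : Submodule ℚ W} (hP : IsForm P) {B : W →ₗ[ℂ] W} (hB : ∀ a ∈ P, B a ∈ P) :
    ∃ q : ℚ, LinearMap.trace ℂ W B = q := by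
  classical
  obtain ⟨n, b, rfl⟩ := hP
  have h1 : ∀ i, ∃ q : Fin n → ℚ, ∑ j, q j • b j = B (b i) := by
    intro i
    exact Submodule.mem_span_range_iff_exists_fun ℚ |>.mp
      (hB _ (Submodule.subset_span ⟨i, rfl⟩))
  choose q hq using h1
  refine ⟨∑ i, q i i, ?_⟩
  rw [LinearMap.trace_eq_matrix_trace ℂ b, Matrix.trace, Rat.cast_sum]
  refine Finset.sum_congr rfl fun i _ => ?_
  rw [Matrix.diag_apply, LinearMap.toMatrix_apply, ← hq i, map_sum, Finset.sum_apply']
  have h2 : ∀ j, (b.repr (q i j • b j)) i = if j = i then ((q i j : ℚ) : ℂ) else 0 := by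
    intro j
    rw [rat_smul, map_smul, Module.Basis.repr_self, Finsupp.smul_apply, Finsupp.single_apply]
    simp
  rw [Finset.sum_congr rfl fun j _ => h2 j, Finset.sum_ite_eq' Finset.univ i]
  simp

variable {G : Type} [Group G] (τ : Representation ℂ G W)

/-- `Λ` is an equivariant isomorphism of `P` with `Q` (extended `ℂ`-linearly) -/
def IsFIso (P Q : Submodule ℚ W) (Λ : W →ₗ[ℂ] W) : Prop :=
  (∀ g w, Λ (τ g w) = τ g (Λ w)) ∧ (∀ a ∈ P, Λ a ∈ Q) ∧ ∀ h ∈ Q, ∃ a ∈ P, Λ a = h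

variable {τ} {P Q : Submodule ℚ W}

lemma IsForm.fin (hP : IsForm P) : FiniteDimensional ℂ W := by
  obtain ⟨n, b, -⟩ := hP
  exact Module.Finite.of_basis b

lemma IsForm.span (hP : IsForm P) : Submodule.span ℂ (P : Set W) = ⊤ := by
  obtain ⟨n, b, rfl⟩ := hP
  rw [eq_top_iff, ← b.span_eq, Submodule.span_le]
  rintro x ⟨i, rfl⟩
  exact Submodule.subset_span (Submodule.subset_span ⟨i, rfl⟩)

lemma IsFIso.surj (hQ : IsForm Q) {Λ : W →ₗ[ℂ] W} (h : IsFIso τ P Q Λ) :
    Function.Surjective Λ := by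
  rw [← LinearMap.range_eq_top, eq_top_iff, ← hQ.span, Submodule.span_le]
  intro x hx
  obtain ⟨a, -, ha⟩ := h.2.2 x hx
  exact ⟨a, ha⟩

lemma IsFIso.inj (hQ : IsForm Q) {Λ : W →ₗ[ℂ] W} (h : IsFIso τ P Q Λ) :
    Function.Injective Λ := by
  have := hQ.fin
  exact LinearMap.injective_iff_surjective.mpr (h.surj hQ)

/-- equivariant isomorphisms exist -/
theorem exists_fiso [Finite G] (hP : IsForm P) (hQ : IsForm Q) (hτP : ∀ g, ∀ a ∈ P, τ g a ∈ P)
    (hτQ : ∀ g, ∀ a ∈ Q, τ g a ∈ Q) : ∃ Λ, IsFIso τ P Q Λ := by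
  classical
  have hft : Fintype G := Fintype.ofFinite G
  have hfin := hP.fin
  obtain ⟨n, b, hb⟩ := hP
  obtain ⟨n', b', hb'⟩ := hQ
  have hn : n = n' := by
    have h1 := Module.finrank_eq_card_basis b
    have h2 := Module.finrank_eq_card_basis b'
    rw [Fintype.card_fin] at h1 h2
    omega
  subst hn
  -- elementary maps
  let e : Fin n × Fin n → (W →ₗ[ℂ] W) := fun i => b.constr ℂ (fun k => if k = i.1 then b' i.2 else 0)
  have he : ∀ i k, e i (b k) = if k = i.1 then b' i.2 else 0 := fun i k =>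
    b.constr_basis ℂ _ k
  have heP : ∀ i, ∀ a ∈ P, e i a ∈ Q := by
    intro i a ha
    rw [← hb] at ha
    obtain ⟨q, rfl⟩ := (Submodule.mem_span_range_iff_exists_fun ℚ).mp ha
    rw [map_sum]
    refine Q.sum_mem fun k _ => ?_
    rw [rat_smul, map_smul, ← rat_smul, he]
    split_ifs
    · rw [← hb']
      exact Submodule.smul_mem _ _ (Submodule.subset_span ⟨_, rfl⟩)
    · rw [smul_zero]; exact Q.zero_mem
  let E : Fin n × Fin n → (W →ₗ[ℂ] W) := fun i => ∑ g : G, τ g ∘ₗ e i ∘ₗ τ g⁻¹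
  have hE : ∀ i w, E i w = ∑ g : G, τ g (e i (τ g⁻¹ w)) := by
    intro i w
    simp only [E, LinearMap.sum_apply, LinearMap.comp_apply]
  have hEP : ∀ i, ∀ a ∈ P, E i a ∈ Q := by
    intro i a ha
    rw [hE]
    exact Q.sum_mem fun g _ => hτQ _ _ (heP i _ (hτP _ _ ha))
  have hEc : ∀ i g w, E i (τ g w) = τ g (E i w) := by
    intro i h w
    rw [hE, hE, map_sum, ← Equiv.sum_comp (Equiv.mulLeft h)]
    refine Finset.sum_congr rfl fun g _ => ?_
    change τ (h * g) (e i (τ (h * g)⁻¹ (τ h w))) = _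
    have h2 : τ (h * g)⁻¹ (τ h w) = τ g⁻¹ w := by
      rw [← Module.End.mul_apply, ← map_mul]
      congr 2
      group
    rw [h2, map_mul, Module.End.mul_apply]
  -- the identity as a combination
  let c : Fin n × Fin n → ℂ := fun i => b'.repr (b i.1) i.2
  have hid : ∑ i, c i • e i = LinearMap.id := by
    apply b.ext
    intro k
    rw [LinearMap.sum_apply, Fintype.sum_prod_type, LinearMap.id_apply]
    have h3 : ∀ x : Fin n, ∑ y : Fin n, (c (x, y) • e (x, y)) (b k)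
        = if k = x then b x else 0 := by
      intro x
      have h4 : ∀ y, (c (x, y) • e (x, y)) (b k)
          = if k = x then (b'.repr (b x)) y • b' y else 0 := by
        intro y
        rw [LinearMap.smul_apply, he]
        split_ifs
        · rfl
        · rw [smul_zero]
      rw [Finset.sum_congr rfl fun y _ => h4 y]
      split_ifs
      · exact b'.sum_repr (b x)
      · exact Finset.sum_const_zero
    rw [Finset.sum_congr rfl fun x _ => h3 x, Finset.sum_ite_eq Finset.univ k,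
      if_pos (Finset.mem_univ _)]
  have hsum : ∑ i, c i • E i = (Fintype.card G : ℂ) • LinearMap.id := by
    apply LinearMap.ext
    intro w
    rw [LinearMap.sum_apply]
    have h5 : ∀ i, (c i • E i) w = ∑ g : G, τ g ((c i • e i) (τ g⁻¹ w)) := by
      intro i
      rw [LinearMap.smul_apply, hE, Finset.smul_sum]
      refine Finset.sum_congr rfl fun g _ => ?_
      rw [LinearMap.smul_apply, map_smul]
    rw [Finset.sum_congr rfl fun i _ => h5 i, Finset.sum_comm]
    have h6 : ∀ g : G, ∑ i, τ g ((c i • e i) (τ g⁻¹ w)) = w := by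
      intro g
      rw [← map_sum, ← LinearMap.sum_apply, hid, LinearMap.id_apply, ← Module.End.mul_apply,
        ← map_mul, mul_inv_cancel, map_one, Module.End.one_apply]
    rw [Finset.sum_congr rfl fun g _ => h6 g, Finset.sum_const, Finset.card_univ,
      ← Nat.cast_smul_eq_nsmul ℂ]
    rfl
  have hdet : LinearMap.det (∑ i, c i • E i) ≠ 0 := by
    rw [hsum, LinearMap.det_smul, LinearMap.det_id, mul_one]
    apply pow_ne_zero
    exact_mod_cast Fintype.card_ne_zero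
  obtain ⟨q, hq⟩ := exists_rat E c hdet
  let F : W →ₗ[ℂ] W := ∑ i, ((q i : ℚ) : ℂ) • E i
  have hFw : ∀ w, F w = ∑ i, q i • E i w := by
    intro w
    simp only [F, LinearMap.sum_apply, LinearMap.smul_apply]
    exact Finset.sum_congr rfl fun i _ => (rat_smul _ _).symm
  have hFi : Function.Injective F := by
    have h3 : IsUnit F := (LinearMap.isUnit_iff_isUnit_det F).mpr (isUnit_iff_ne_zero.mpr hq)
    exact LinearMap.ker_eq_bot.mp ((LinearMap.isUnit_iff_ker_eq_bot F).mp h3)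
  have hFP : ∀ a ∈ P, F a ∈ Q := by
    intro a ha
    rw [hFw]
    exact Q.sum_mem fun i _ => Q.smul_mem _ (hEP i a ha)
  -- dimensions
  have hrank : ∀ (b : Module.Basis (Fin n) ℂ W) (P : Submodule ℚ W),
      Submodule.span ℚ (Set.range b) = P → FiniteDimensional ℚ P ∧ Module.finrank ℚ P = n := by
    rintro b P rfl
    have hli : LinearIndependent ℚ b := b.linearIndependent.restrict_scalars (by
      intro x y hxy
      simp only [Rat.smul_def, mul_one] at hxy
      exact_mod_cast hxy)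
    refine ⟨FiniteDimensional.span_of_finite ℚ (Set.finite_range b), ?_⟩
    rw [finrank_span_eq_card hli, Fintype.card_fin]
  obtain ⟨f1, r1⟩ := hrank b P hb
  obtain ⟨f2, r2⟩ := hrank b' Q hb'
  let f : P →ₗ[ℚ] Q :=
    { toFun := fun a => ⟨F a.1, hFP a.1 a.2⟩
      map_add' := fun a b => Subtype.ext (map_add F _ _)
      map_smul' := fun c a => Subtype.ext (by
        change F (c • a.1) = c • F a.1
        rw [rat_smul, map_smul, ← rat_smul]) }
  have hfi : Function.Injective f := fun x y h => Subtype.ext (hFi (congrArg Subtype.val h))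
  have hfs : Function.Surjective f :=
    (LinearMap.injective_iff_surjective_of_finrank_eq_finrank (r1.trans r2.symm)).mp hfi
  refine ⟨F, ?_, hFP, ?_⟩
  · intro g w
    rw [hFw, hFw, map_sum]
    refine Finset.sum_congr rfl fun i _ => ?_
    rw [hEc, rat_smul, rat_smul, map_smul]
  · intro h hh
    obtain ⟨a, ha⟩ := hfs ⟨h, hh⟩
    exact ⟨a.1, a.2, congrArg Subtype.val ha⟩

end form

section reg

variable {G : Type} [Group G] {W : Type} [AddCommGroup W] [Module ℂ W]

/-- `r` is the determinant of `f ↦ Λ ∘ f` on `Hom_G(V, W)`, where `V` is a representation with the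
character `g ↦ χ (g⁻¹)` -/
def IsRg (τ : Representation ℂ G W) (Λ : W →ₗ[ℂ] W) (χ : G → ℂ) (r : ℂ) : Prop :=
  ∃ (V : Type) (_ : AddCommGroup V) (_ : Module ℂ V) (_ : FiniteDimensional ℂ V)
    (ρ : Representation ℂ G V), (∀ g, ρ.character g = χ g⁻¹) ∧
      ∃ hΛ : ∀ g w, Λ (τ g w) = τ g (Λ w), r = homDet ρ τ Λ hΛ

/-- the traces which belong to the determinant -/
noncomputable def tsq (τ : Representation ℂ G W) (Λ : W →ₗ[ℂ] W) (χ : G → ℂ) (k : ℕ) : ℂ :=
  (Nat.card G : ℂ)⁻¹ * ∑ᶠ g : G, χ g * LinearMap.trace ℂ W (τ g ∘ₗ (Λ ^ k))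

variable {τ : Representation ℂ G W} {Λ Λ' : W →ₗ[ℂ] W} {χ χ' : G → ℂ} {r r' s s' : ℂ}

lemma IsRg.detOf [Finite G] [FiniteDimensional ℂ W] (h : IsRg τ Λ χ r) :
    DetOf (tsq τ Λ χ) r := by
  obtain ⟨V, _, _, _, ρ, hρ, hΛ, rfl⟩ := h
  exact detOf_homDet hρ _ _ _

lemma IsRg.exists (hΛ : ∀ g w, Λ (τ g w) = τ g (Λ w)) (h : IsChar χ) : ∃ r, IsRg τ Λ χ r := by
  obtain ⟨V, _, _, _, ρ, hρ⟩ := isChar_inv h
  exact ⟨_, V, inferInstance, inferInstance, inferInstance, ρ, fun g => (congrFun hρ g).symm,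
    hΛ, rfl⟩

lemma IsRg.ne [Finite G] [FiniteDimensional ℂ W] (h : IsRg τ Λ χ r) (hi : Function.Injective Λ) :
    r ≠ 0 := by
  obtain ⟨V, _, _, _, ρ, hρ, hΛ, rfl⟩ := h
  exact det_homMap_ne _ _ _ _ hi

lemma IsRg.unique [Finite G] [FiniteDimensional ℂ W] (h : IsRg τ Λ χ r) (h' : IsRg τ Λ χ r') :
    r' = r := h.detOf.unique h'.detOf

lemma IsRg.add [Finite G] [FiniteDimensional ℂ W] (h : IsRg τ Λ χ r) (h' : IsRg τ Λ χ' r')
    (hs : IsRg τ Λ (χ + χ') s) : s = r * r' := by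
  refine hs.detOf.add h.detOf h'.detOf fun k => ?_
  have : Fintype G := Fintype.ofFinite _
  unfold tsq
  rw [finsum_eq_sum_of_fintype, finsum_eq_sum_of_fintype, finsum_eq_sum_of_fintype, ← mul_add,
    ← Finset.sum_add_distrib]
  congr 1
  refine Finset.sum_congr rfl fun g _ => ?_
  rw [Pi.add_apply, add_mul]

/-- changing the isomorphism -/
theorem IsRg.change [Finite G] [Module ℚ W] [IsScalarTower ℚ ℂ W] {P Q : Submodule ℚ W}
    (hP : IsForm P) (hQ : IsForm Q) (hτP : ∀ g, ∀ a ∈ P, τ g a ∈ P)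
    (σ : ℂ →+* ℂ) (hχ : IsChar χ) (hχ' : IsChar (fun g => σ (χ g)))
    (hΛ : IsFIso τ P Q Λ) (hΛ' : IsFIso τ P Q Λ')
    (h : IsRg τ Λ χ r) (h' : IsRg τ Λ' χ r')
    (hs : IsRg τ Λ (fun g => σ (χ g)) s) (hs' : IsRg τ Λ' (fun g => σ (χ g)) s') :
    s' * σ r = s * σ r' := by
  have hfin := hP.fin
  let e : W ≃ₗ[ℂ] W := LinearEquiv.ofBijective Λ ⟨hΛ.inj hQ, hΛ.surj hQ⟩
  have he : ∀ w, e w = Λ w := fun w => rfl
  let B : W →ₗ[ℂ] W := e.symm.toLinearMap ∘ₗ Λ'
  have hB : ∀ w, Λ (B w) = Λ' w := by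
    intro w
    change e (e.symm (Λ' w)) = Λ' w
    rw [LinearEquiv.apply_symm_apply]
  have hBe : ∀ g w, B (τ g w) = τ g (B w) := by
    intro g w
    apply hΛ.inj hQ
    rw [hB, hΛ.1, hB, hΛ'.1]
  have hBP : ∀ a ∈ P, B a ∈ P := by
    intro a ha
    obtain ⟨a', ha', h1⟩ := hΛ.2.2 _ (hΛ'.2.1 a ha)
    have h2 : B a = a' := by
      apply hΛ.inj hQ
      rw [hB, h1]
    rw [h2]
    exact ha'
  have hBk : ∀ (k : ℕ), ∀ a ∈ P, (B ^ k) a ∈ P := by
    intro k
    induction k with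
    | zero => intro a ha; exact ha
    | succ k ih =>
      intro a ha
      rw [pow_succ, Module.End.mul_apply]
      exact ih _ (hBP a ha)
  have hcomp : Λ' = Λ ∘ₗ B := by
    apply LinearMap.ext
    intro w
    rw [LinearMap.comp_apply, hB]
  have hdet : ∀ {θ : G → ℂ} {u u' : ℂ}, IsRg τ Λ θ u → IsRg τ Λ' θ u' → IsChar θ →
      ∃ d, DetOf (tsq τ B θ) d ∧ u' = u * d := by
    intro θ u u' hu hu' hθ
    obtain ⟨V, _, _, _, ρ, hρ⟩ := isChar_inv hθ
    have hρ' : ∀ g, ρ.character g = θ g⁻¹ := fun g => (congrFun hρ g).symm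
    have e1 : IsRg τ Λ θ (homDet ρ τ Λ hΛ.1) :=
      ⟨V, inferInstance, inferInstance, inferInstance, ρ, hρ', hΛ.1, rfl⟩
    have e2 : IsRg τ Λ' θ (homDet ρ τ Λ' hΛ'.1) :=
      ⟨V, inferInstance, inferInstance, inferInstance, ρ, hρ', hΛ'.1, rfl⟩
    refine ⟨homDet ρ τ B hBe, detOf_homDet hρ' _ _ _, ?_⟩
    rw [e1.unique hu, e2.unique hu']
    exact homDet_comp ρ τ Λ B Λ' hΛ.1 hBe hΛ'.1 hcomp
  obtain ⟨d, hd, rfl⟩ := hdet h h' hχ
  obtain ⟨d', hd', rfl⟩ := hdet hs hs' hχ'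
  have hdd : d' = σ d := by
    refine hd.sigma hd' σ fun k => ?_
    have : Fintype G := Fintype.ofFinite _
    unfold tsq
    rw [finsum_eq_sum_of_fintype, finsum_eq_sum_of_fintype, map_mul, map_inv₀, map_natCast,
      map_sum]
    congr 1
    refine Finset.sum_congr rfl fun g _ => ?_
    rw [map_mul]
    congr 1
    obtain ⟨q, hq⟩ := trace_form hP (B := τ g ∘ₗ B ^ k) (fun a ha => hτP _ _ (hBk k a ha))
    rw [hq, map_ratCast]
  rw [hdd, map_mul]
  ring

end reg

end Pool.Agent.Run7.h375.BE
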