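import Mathlib
import Pool.Agent.Run7.h375.BE.Frm
import Pool.Agent.K4H74.SC.Infl
import Pool.Agent.Run7.h375.BE.Def

/-!
# Functorial pairs of rational structures on the functions on the embeddings
-/

set_option autoImplicit false
set_option linter.unusedSectionVars false

namespace Pool.Agent.Run7.h375.BE

open NumberField Pool.Agent.K4H74.SC
open Pool.Agent.K4H74.ST (IsChar indChar)

/-- A family of complex spaces `W(L)` of functions on the embeddings of `L`, with two rational
structures `P(L)` and `Q(L)`, functorial for restriction and trace. -/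
structure Sys where
  /-- the complex space -/
  W : ∀ (L : Type) [Field L] [NumberField L], Submodule ℂ (V L)
  /-- the first rational structure -/
  P : ∀ (L : Type) [Field L] [NumberField L], Submodule ℚ (V L)
  /-- the second rational structure -/
  Q : ∀ (L : Type) [Field L] [NumberField L], Submodule ℚ (V L)
  /-- rational structures -/
  formP : ∀ (L : Type) [Field L] [NumberField L], IsRatForm (P L) (W L)
  /-- rational structures -/
  formQ : ∀ (L : Type) [Field L] [NumberField L], IsRatForm (Q L) (W L)
  /-- restriction -/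
  mapP : ∀ (F L : Type) [Field F] [NumberField F] [Field L] [NumberField L] (f : F →+* L)
    (a : V F), a ∈ P F → pull f a ∈ P L
  /-- restriction -/
  mapQ : ∀ (F L : Type) [Field F] [NumberField F] [Field L] [NumberField L] (f : F →+* L)
    (a : V F), a ∈ Q F → pull f a ∈ Q L
  /-- trace -/
  trP : ∀ (F L : Type) [Field F] [NumberField F] [Field L] [NumberField L] (f : F →+* L)
    (b : V L), b ∈ P L → push f b ∈ P F
  /-- trace -/
  trQ : ∀ (F L : Type) [Field F] [NumberField F] [Field L] [NumberField L] (f : F →+* L)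
    (b : V L), b ∈ Q L → push f b ∈ Q F

section basic

variable {F L : Type} [Field F] [Field L]

/-- restriction as a linear map -/
def pullL (f : F →+* L) : V F →ₗ[ℂ] V L where
  toFun := pull f
  map_add' _ _ := rfl
  map_smul' _ _ := rfl

lemma push_add [NumberField L] (f : F →+* L) (a b : V L) :
    push f (a + b) = push f a + push f b := by
  funext σ
  have : Finite (L →+* ℂ) := inferInstance
  exact finsum_mem_add_distrib (Set.toFinite {τ : L →+* ℂ | τ.comp f = σ})

lemma push_smul [NumberField L] (f : F →+* L) (c : ℂ) (a : V L) :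
    push f (c • a) = c • push f a := by
  funext σ
  exact (smul_finsum_mem (r := c) (f := a) (Set.toFinite {τ : L →+* ℂ | τ.comp f = σ})).symm

/-- the trace as a linear map -/
noncomputable def pushL [NumberField L] (f : F →+* L) : V L →ₗ[ℂ] V F where
  toFun := push f
  map_add' := push_add f
  map_smul' := push_smul f

end basic

namespace Sys

variable (D : Sys)

section fn

variable (F L : Type) [Field F] [NumberField F] [Field L] [NumberField L]

lemma P_le {a : V L} (ha : a ∈ D.P L) : a ∈ D.W L := by
  obtain ⟨n, b, -, h1, h2⟩ := D.formP L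
  rw [← h2] at ha
  rw [← h1]
  exact Submodule.span_le_restrictScalars ℚ ℂ _ ha

lemma Q_le {a : V L} (ha : a ∈ D.Q L) : a ∈ D.W L := by
  obtain ⟨n, b, -, h1, h2⟩ := D.formQ L
  rw [← h2] at ha
  rw [← h1]
  exact Submodule.span_le_restrictScalars ℚ ℂ _ ha

lemma mapW (f : F →+* L) {a : V F} (ha : a ∈ D.W F) : pull f a ∈ D.W L := by
  obtain ⟨n, b, -, h1, h2⟩ := D.formP F
  have h3 : Submodule.span ℂ (Set.range b) ≤ (D.W L).comap (pullL f) := by
    rw [Submodule.span_le]
    rintro x ⟨i, rfl⟩
    exact D.P_le L (D.mapP F L f _ (by rw [← h2]; exact Submodule.subset_span ⟨i, rfl⟩))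
  rw [← h1] at ha
  exact h3 ha

lemma trW (f : F →+* L) {a : V L} (ha : a ∈ D.W L) : push f a ∈ D.W F := by
  obtain ⟨n, b, -, h1, h2⟩ := D.formP L
  have h3 : Submodule.span ℂ (Set.range b) ≤ (D.W F).comap (pushL f) := by
    rw [Submodule.span_le]
    rintro x ⟨i, rfl⟩
    exact D.P_le F (D.trP F L f _ (by rw [← h2]; exact Submodule.subset_span ⟨i, rfl⟩))
  rw [← h1] at ha
  exact h3 ha

/-- the first rational structure inside `W` -/
noncomputable def PP : Submodule ℚ (D.W L) := (D.P L).comap ((D.W L).subtype.restrictScalars ℚ)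

/-- the second rational structure inside `W` -/
noncomputable def QQ : Submodule ℚ (D.W L) := (D.Q L).comap ((D.W L).subtype.restrictScalars ℚ)

variable {L}

lemma isForm_of {W : Submodule ℂ (V L)} {P : Submodule ℚ (V L)} (h : IsRatForm P W) :
    IsForm (P.comap (W.subtype.restrictScalars ℚ)) := by
  obtain ⟨n, b, hli, rfl, rfl⟩ := h
  refine ⟨n, Module.Basis.span hli, ?_⟩
  have hb : ∀ i, (Module.Basis.span hli i : V L) = b i := fun i => by
    rw [Module.Basis.span_apply hli i]
  ext x
  rw [Submodule.mem_comap, Submodule.mem_span_range_iff_exists_fun,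
    Submodule.mem_span_range_iff_exists_fun]
  constructor
  · rintro ⟨q, hq⟩
    refine ⟨q, ?_⟩
    rw [← hq]
    change _ = ((∑ i, q i • Module.Basis.span hli i : Submodule.span ℂ (Set.range b)) : V L)
    rw [AddSubmonoidClass.coe_finsetSum]
    exact Finset.sum_congr rfl fun i _ => by
      rw [← hb]; rfl
  · rintro ⟨q, hq⟩
    refine ⟨q, Subtype.ext ?_⟩
    change _ = (x : V L) at hq
    rw [← hq, AddSubmonoidClass.coe_finsetSum]
    exact Finset.sum_congr rfl fun i _ => by
      rw [← hb]; rfl

variable (L)

lemma formPP : IsForm (D.PP L) := isForm_of (D.formP L)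

lemma formQQ : IsForm (D.QQ L) := isForm_of (D.formQ L)

end fn

section rep

variable (K L : Type) [Field K] [NumberField K] [Field L] [NumberField L] [Algebra K L]

/-- the action of the Galois group on `W(L)` -/
def rep : Representation ℂ (L ≃ₐ[K] L) (D.W L) where
  toFun g := (pullL (RingHomClass.toRingHom g)).restrict (p := D.W L) (q := D.W L)
    (fun _ ha => D.mapW L L _ ha)
  map_one' := by
    apply LinearMap.ext
    intro a
    apply Subtype.ext
    funext τ
    exact congrArg a.1 (RingHom.ext fun x => rfl)
  map_mul' g h := by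
    apply LinearMap.ext
    intro a
    apply Subtype.ext
    funext τ
    exact congrArg a.1 (RingHom.ext fun x => rfl)

lemma rep_apply (g : L ≃ₐ[K] L) (a : D.W L) :
    (D.rep K L g a : V L) = pull (RingHomClass.toRingHom g) a.1 := rfl

variable {K L}

lemma rep_PP (g : L ≃ₐ[K] L) : ∀ a ∈ D.PP L, D.rep K L g a ∈ D.PP L := fun _ ha =>
  D.mapP L L _ _ ha

lemma rep_QQ (g : L ≃ₐ[K] L) : ∀ a ∈ D.QQ L, D.rep K L g a ∈ D.QQ L := fun _ ha =>
  D.mapQ L L _ _ ha

variable (K L)

/-- an equivariant isomorphism of the two rational structures -/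
abbrev IsIso (Λ : D.W L →ₗ[ℂ] D.W L) : Prop := IsFIso (D.rep K L) (D.PP L) (D.QQ L) Λ

theorem exists_iso : ∃ Λ, D.IsIso K L Λ :=
  exists_fiso (D.formPP L) (D.formQQ L) (fun g => D.rep_PP g) (fun g => D.rep_QQ g)

end rep

end Sys

end Pool.Agent.Run7.h375.BE
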