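import Mathlib
import Pool.Agent.Run7.h375.BE.Sys

/-!
# Inflation and induction of the determinants
-/

set_option autoImplicit false
set_option linter.unusedSectionVars false

namespace Pool.Agent.Run7.h375.BE

open NumberField Pool.Agent.K4H74.SC
open Pool.Agent.K4H74.ST (IsChar indChar)

section infl

variable {G H : Type} [Group G] [Group H] [Finite G] [Finite H] {W W' : Type} [AddCommGroup W]
  [Module ℂ W] [FiniteDimensional ℂ W] [AddCommGroup W'] [Module ℂ W'] [FiniteDimensional ℂ W']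

/-- inflation -/
theorem IsRg.infl (π : G →* H) (hπ : Function.Surjective π) (i : W' →ₗ[ℂ] W)
    (hi : Function.Injective i) {τ : Representation ℂ G W} {τ' : Representation ℂ H W'}
    (hτ : ∀ g a, τ g (i a) = i (τ' (π g) a))
    (hinv : ∀ a, (∀ g, π g = 1 → τ g a = a) → ∃ b, i b = a) {Λ : W →ₗ[ℂ] W}
    {Λ' : W' →ₗ[ℂ] W'} (hΛ : ∀ a, Λ (i a) = i (Λ' a)) {χ : H → ℂ} {r r' : ℂ}
    (h : IsRg τ' Λ' χ r) (h' : IsRg τ Λ (fun g => χ (π g)) r') : r' = r := by
  classical
  refine h.detOf.sigma h'.detOf (RingHom.id ℂ) fun k => ?_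
  rw [RingHom.id_apply]
  have hft : Fintype H := Fintype.ofFinite _
  have hft' : Fintype G := Fintype.ofFinite _
  have hker : ∀ x : H, (Finset.univ.filter fun g => π g = x).card = Nat.card π.ker := by
    intro x
    obtain ⟨y, rfl⟩ := hπ x
    rw [← Fintype.card_subtype, ← Nat.card_eq_fintype_card]
    refine Nat.card_congr
      { toFun := fun g => ⟨g.1 * y⁻¹, by
          rw [MonoidHom.mem_ker, map_mul, map_inv, g.2, mul_inv_cancel]⟩
        invFun := fun h => ⟨h.1 * y, by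
          rw [map_mul, (MonoidHom.mem_ker.mp h.2), one_mul]⟩
        left_inv := fun g => Subtype.ext (by simp)
        right_inv := fun h => Subtype.ext (by simp) }
  have hcard : Nat.card G = Nat.card π.ker * Nat.card H := by
    have h1 := π.ker.index_mul_card
    rw [Subgroup.index_ker, MonoidHom.range_eq_top.mpr hπ, Subgroup.card_top] at h1
    rw [← h1, mul_comm]
  have hkc : (Nat.card π.ker : ℂ) ≠ 0 := by exact_mod_cast Nat.card_pos.ne'
  unfold tsq
  rw [finsum_eq_sum_of_fintype, finsum_eq_sum_of_fintype, hcard]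
  let A : W →ₗ[ℂ] W := ∑ g : G, χ (π g) • (τ g ∘ₗ (Λ ^ k))
  let B : W' →ₗ[ℂ] W' := ∑ g : H, χ g • (τ' g ∘ₗ (Λ' ^ k))
  have hcomm : ∀ g w, Λ (τ g w) = τ g (Λ w) := by
    obtain ⟨_, _, _, _, _, _, h, _⟩ := h'
    exact h
  have hpow : ∀ (k : ℕ) (a : W'), (Λ ^ k) (i a) = i ((Λ' ^ k) a) := by
    intro k
    induction k with
    | zero => intro a; rfl
    | succ k ih =>
      intro a
      rw [pow_succ, Module.End.mul_apply, hΛ, ih, pow_succ, Module.End.mul_apply]
  have hAB : ∀ a, A (i a) = (Nat.card π.ker : ℂ) • i (B a) := by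
    intro a
    simp only [A, B, LinearMap.sum_apply, LinearMap.smul_apply, map_sum, map_smul,
      LinearMap.comp_apply, hpow]
    have h1 : ∀ g : G, χ (π g) • τ g (i ((Λ' ^ k) a))
        = (fun x : H => χ x • i (τ' x ((Λ' ^ k) a))) (π g) := by
      intro g
      change _ = χ (π g) • i (τ' (π g) ((Λ' ^ k) a))
      rw [hτ]
    rw [Finset.sum_congr rfl (fun g _ => h1 g), ← Finset.sum_fiberwise (s := Finset.univ)
      (g := fun g : G => π g), Finset.smul_sum]
    refine Finset.sum_congr rfl fun x _ => ?_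
    rw [← hker x, Nat.cast_smul_eq_nsmul ℂ, ← Finset.sum_const]
    refine Finset.sum_congr rfl fun g hg => ?_
    rw [(Finset.mem_filter.mp hg).2]
  have hAinv : ∀ a, ∃ b, i b = A a := by
    intro a
    refine hinv (A a) fun h hh => ?_
    simp only [A, LinearMap.sum_apply, LinearMap.smul_apply, map_sum, map_smul,
      LinearMap.comp_apply]
    conv_rhs => rw [← Equiv.sum_comp (Equiv.mulLeft h)]
    refine Finset.sum_congr rfl fun g _ => ?_
    change χ (π g) • τ h (τ g ((Λ ^ k) a)) = χ (π (h * g)) • τ (h * g) ((Λ ^ k) a)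
    rw [map_mul, hh, one_mul, map_mul]
    rfl
  have htr : LinearMap.trace ℂ _ A = (Nat.card π.ker : ℂ) * LinearMap.trace ℂ _ B :=
    trace_transfer i hi A B _ hAB hAinv
  have h4 : LinearMap.trace ℂ _ A = ∑ g : G, χ (π g) *
      LinearMap.trace ℂ W (τ g ∘ₗ (Λ ^ k)) := by
    simp only [A, map_sum, map_smul, smul_eq_mul]
  have h5 : LinearMap.trace ℂ _ B = ∑ g : H, χ g *
      LinearMap.trace ℂ W' (τ' g ∘ₗ (Λ' ^ k)) := by
    simp only [B, map_sum, map_smul, smul_eq_mul]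
  rw [← h5]
  change _ * (∑ g : G, χ (π g) * _) = _
  rw [← h4, htr]
  push_cast
  field_simp

end infl

section ind

variable {K F L : Type} [Field K] [NumberField K] [Field F] [NumberField F] [Field L]
  [NumberField L] [Algebra K F] [Algebra F L] [Algebra K L] [IsScalarTower K F L]
  {W : Type} [AddCommGroup W] [Module ℂ W] [FiniteDimensional ℂ W]

/-- induction -/
theorem IsRg.ind {τ : Representation ℂ (L ≃ₐ[K] L) W} {τ' : Representation ℂ (L ≃ₐ[F] L) W}
    (hτ : ∀ g : L ≃ₐ[F] L, τ (g.restrictScalars K) = τ' g) {Λ : W →ₗ[ℂ] W}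
    {χ : (L ≃ₐ[F] L) → ℂ} {r r' : ℂ} (h : IsRg τ' Λ χ r)
    (h' : IsRg τ Λ (indChar K F L χ) r') : r' = r := by
  classical
  refine h.detOf.sigma h'.detOf (RingHom.id ℂ) fun k => ?_
  rw [RingHom.id_apply]
  have : Fintype (L ≃ₐ[K] L) := Fintype.ofFinite _
  have : Fintype (L ≃ₐ[F] L) := Fintype.ofFinite _
  unfold tsq
  rw [finsum_eq_sum_of_fintype, finsum_eq_sum_of_fintype]
  have hG : (Nat.card (L ≃ₐ[K] L) : ℂ) ≠ 0 := by exact_mod_cast Nat.card_pos.ne'
  have hcomm : ∀ g w, Λ (τ g w) = τ g (Λ w) := by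
    obtain ⟨_, _, _, _, _, _, h, _⟩ := h'
    exact h
  let t : (L ≃ₐ[K] L) → ℂ := fun g => LinearMap.trace ℂ W (τ g ∘ₗ (Λ ^ k))
  have ht : ∀ x g : L ≃ₐ[K] L, t (x * g * x⁻¹) = t g := by
    intro x g
    change LinearMap.trace ℂ W (τ (x * g * x⁻¹) ∘ₗ (Λ ^ k)) = _
    have h1 : τ (x * g * x⁻¹) ∘ₗ (Λ ^ k) = τ x ∘ₗ (τ g ∘ₗ (Λ ^ k) ∘ₗ τ x⁻¹) := by
      apply LinearMap.ext
      intro a
      rw [map_mul, map_mul]
      simp only [LinearMap.comp_apply, Module.End.mul_apply]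
      rw [comm_pow hcomm]
    rw [h1, LinearMap.trace_comp_comm']
    congr 1
    apply LinearMap.ext
    intro a
    simp only [LinearMap.comp_apply]
    rw [← Module.End.mul_apply (τ x⁻¹), ← map_mul, inv_mul_cancel, map_one,
      Module.End.one_apply]
  have h2 : ∀ g : L ≃ₐ[K] L, indChar K F L χ g * t g
      = (Nat.card (L ≃ₐ[F] L) : ℂ)⁻¹ * ∑ x : L ≃ₐ[K] L, ∑ h : L ≃ₐ[F] L,
        (if x * h.restrictScalars K * x⁻¹ = g then χ h * t (h.restrictScalars K) else 0) := by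
    intro g
    rw [indChar, finsum_eq_sum_of_fintype, mul_assoc, Finset.sum_mul]
    congr 1
    refine Finset.sum_congr rfl fun x _ => ?_
    rw [finsum_eq_sum_of_fintype, Finset.sum_mul]
    refine Finset.sum_congr rfl fun h _ => ?_
    by_cases hg : h.restrictScalars K = x⁻¹ * g * x
    · rw [finsum_eq_single _ hg (fun h1 h2 => absurd rfl h2), if_pos (by rw [hg]; group), hg]
      have h3 := ht x⁻¹ g
      rw [inv_inv] at h3
      rw [h3]
    · rw [if_neg (fun h1 => hg (by rw [← h1]; group))]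
      have : IsEmpty (h.restrictScalars K = x⁻¹ * g * x) := ⟨hg⟩
      rw [finsum_of_isEmpty, zero_mul]
  change (Nat.card (L ≃ₐ[K] L) : ℂ)⁻¹ * ∑ g, indChar K F L χ g * t g
    = (Nat.card (L ≃ₐ[F] L) : ℂ)⁻¹ * ∑ h : L ≃ₐ[F] L, χ h * LinearMap.trace ℂ W (τ' h ∘ₗ (Λ ^ k))
  have h0 : ∀ h : L ≃ₐ[F] L, LinearMap.trace ℂ W (τ' h ∘ₗ (Λ ^ k)) = t (h.restrictScalars K) := by
    intro h
    change _ = LinearMap.trace ℂ W (τ (h.restrictScalars K) ∘ₗ (Λ ^ k))
    rw [hτ]
  have h01 : ∑ h : L ≃ₐ[F] L, χ h * LinearMap.trace ℂ W (τ' h ∘ₗ (Λ ^ k))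
      = ∑ h : L ≃ₐ[F] L, χ h * t (h.restrictScalars K) :=
    Finset.sum_congr rfl fun h _ => by rw [h0]
  rw [h01, Finset.sum_congr rfl (fun g _ => h2 g), ← Finset.mul_sum, Finset.sum_comm]
  have h4 : ∀ x : L ≃ₐ[K] L, ∑ g : L ≃ₐ[K] L, ∑ h : L ≃ₐ[F] L,
      (if x * h.restrictScalars K * x⁻¹ = g then χ h * t (h.restrictScalars K) else 0)
        = ∑ h : L ≃ₐ[F] L, χ h * t (h.restrictScalars K) := by
    intro x
    rw [Finset.sum_comm]
    refine Finset.sum_congr rfl fun h _ => ?_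
    rw [Finset.sum_ite_eq Finset.univ, if_pos (Finset.mem_univ _)]
  rw [Finset.sum_congr rfl (fun x _ => h4 x), Finset.sum_const, Finset.card_univ,
    ← Nat.card_eq_fintype_card, nsmul_eq_mul]
  field_simp

end ind

end Pool.Agent.Run7.h375.BE
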