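import Mathlib
import Pool.Agent.Run7.h375.BE.Ab
import Pool.Agent.K4H74.SC.Inst

/-!
# The defect as an inductive invariant
-/

set_option autoImplicit false
set_option linter.unusedSectionVars false

namespace Pool.Agent.Run7.h375.BE

open NumberField NumberField.ComplexEmbedding Pool.Agent.K4H74.SC
open Pool.Agent.K4H74.ST (ArtinInvariant IsChar indChar)

section fib

variable {L N : Type} [Field L] [NumberField L] [Field N] [NumberField N] [Algebra L N]
  [IsGalois L N]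

/-- the trace in a Galois extension -/
lemma push_eq (b : V N) (τ : N →+* ℂ) :
    push (algebraMap L N) b (τ.comp (algebraMap L N))
      = ∑ᶠ g : N ≃ₐ[L] N, b (τ.comp (RingHomClass.toRingHom g)) := by
  have h := finsum_mem_eq_of_bijOn (s := (Set.univ : Set (N ≃ₐ[L] N)))
    (t := {φ : N →+* ℂ | φ.comp (algebraMap L N) = τ.comp (algebraMap L N)})
    (f := fun g => b (τ.comp (RingHomClass.toRingHom g))) (g := b)
    (fun g => τ.comp (RingHomClass.toRingHom g)) ?_ (fun x _ => rfl)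
  · rw [finsum_mem_univ] at h
    exact h.symm
  · refine ⟨fun g _ => ?_, fun g _ g' _ h => ?_, fun φ hφ => ?_⟩
    · change (τ.comp (RingHomClass.toRingHom g)).comp (algebraMap L N) = _
      ext x
      change τ (g (algebraMap L N x)) = τ (algebraMap L N x)
      rw [g.commutes]
    · ext x
      apply τ.injective
      exact RingHom.congr_fun h x
    · obtain ⟨σ, hσ⟩ := exists_comp_symm_eq_of_comp_eq (k := L) τ φ (Eq.symm hφ)
      exact ⟨σ.symm, Set.mem_univ _, hσ⟩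

/-- the restriction is injective -/
lemma pull_inj : Function.Injective (pull (algebraMap L N)) := by
  intro a b h
  funext σ
  have h1 := congrFun h (ComplexEmbedding.lift N σ)
  change a ((ComplexEmbedding.lift N σ).comp (algebraMap L N))
    = b ((ComplexEmbedding.lift N σ).comp (algebraMap L N)) at h1
  rwa [ComplexEmbedding.lift_comp_algebraMap] at h1

/-- the invariant functions -/
lemma pull_push {b : V N} (hb : ∀ g : N ≃ₐ[L] N, pull (RingHomClass.toRingHom g) b = b) :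
    pull (algebraMap L N) (push (algebraMap L N) b) = (Nat.card (N ≃ₐ[L] N) : ℂ) • b := by
  have hft : Fintype (N ≃ₐ[L] N) := Fintype.ofFinite _
  funext τ
  change push (algebraMap L N) b (τ.comp (algebraMap L N)) = _
  rw [push_eq, finsum_eq_sum_of_fintype]
  have h1 : ∀ g : N ≃ₐ[L] N, b (τ.comp (RingHomClass.toRingHom g)) = b τ := fun g =>
    congrFun (hb g) τ
  rw [Finset.sum_congr rfl fun g _ => h1 g, Finset.sum_const, Finset.card_univ,
    ← Nat.card_eq_fintype_card, nsmul_eq_mul]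
  rfl

end fib

namespace Sys

variable (D : Sys)

section up

variable (L N : Type) [Field L] [NumberField L] [Field N] [NumberField N] [Algebra L N]

/-- the map from `W(L)` to `W(N)` -/
def up : D.W L →ₗ[ℂ] D.W N :=
  (pullL (algebraMap L N)).restrict (p := D.W L) (q := D.W N) (fun _ ha => D.mapW L N _ ha)

/-- the map from `W(N)` to `W(L)` -/
noncomputable def dn : D.W N →ₗ[ℂ] D.W L :=
  (pushL (algebraMap L N)).restrict (p := D.W N) (q := D.W L) (fun _ ha => D.trW L N _ ha)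

variable {L N}

lemma up_val (a : D.W L) : (D.up L N a : V N) = pull (algebraMap L N) a.1 := rfl

lemma dn_val (a : D.W N) : (D.dn L N a : V L) = push (algebraMap L N) a.1 := rfl

lemma up_inj [IsGalois L N] : Function.Injective (D.up L N) := by
  intro a b h
  have h1 : pull (algebraMap L N) a.1 = pull (algebraMap L N) b.1 := congrArg Subtype.val h
  exact Subtype.ext (pull_inj h1)

lemma up_PP {a : D.W L} (ha : a ∈ D.PP L) : D.up L N a ∈ D.PP N := D.mapP L N _ _ ha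

lemma up_QQ {a : D.W L} (ha : a ∈ D.QQ L) : D.up L N a ∈ D.QQ N := D.mapQ L N _ _ ha

lemma dn_PP {a : D.W N} (ha : a ∈ D.PP N) : D.dn L N a ∈ D.PP L := D.trP L N _ _ ha

lemma dn_QQ {a : D.W N} (ha : a ∈ D.QQ N) : D.dn L N a ∈ D.QQ L := D.trQ L N _ _ ha

lemma up_dn [IsGalois L N] {b : D.W N} (hb : ∀ g : N ≃ₐ[L] N, D.rep L N g b = b) :
    D.up L N (D.dn L N b) = (Nat.card (N ≃ₐ[L] N) : ℂ) • b := by
  apply Subtype.ext
  exact pull_push fun g => congrArg Subtype.val (hb g)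

end up

section infl

variable {K L N : Type} [Field K] [NumberField K] [Field L] [NumberField L] [Field N]
  [NumberField N] [Algebra K L] [Algebra L N] [Algebra K N] [IsScalarTower K L N] [IsGalois K L]
  [IsGalois K N]

lemma up_rep (g : N ≃ₐ[K] N) (a : D.W L) :
    D.rep K N g (D.up L N a) = D.up L N (D.rep K L (AlgEquiv.restrictNormalHom L g) a) := by
  apply Subtype.ext
  funext τ
  refine congrArg a.1 (RingHom.ext fun x => ?_)
  change τ (g (algebraMap L N x)) = τ (algebraMap L N (AlgEquiv.restrictNormalHom L g x))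
  congr 1
  exact (AlgEquiv.restrictNormal_commutes g L x).symm

lemma res_restrict' (h : N ≃ₐ[L] N) :
    AlgEquiv.restrictNormalHom L (h.restrictScalars K : N ≃ₐ[K] N) = 1 :=
  res_restrict h

variable (K) in
lemma up_surj (a : D.W N)
    (ha : ∀ h : N ≃ₐ[K] N, AlgEquiv.restrictNormalHom L h = 1 → D.rep K N h a = a) :
    ∃ b, D.up L N b = a ∧ (a ∈ D.PP N → b ∈ D.PP L) ∧ (a ∈ D.QQ N → b ∈ D.QQ L) := by
  have hLN : IsGalois L N := IsGalois.tower_top_of_isGalois K L N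
  have hc : (Nat.card (N ≃ₐ[L] N) : ℂ) ≠ 0 := by exact_mod_cast Nat.card_pos.ne'
  have h1 : ∀ g : N ≃ₐ[L] N, D.rep L N g a = a := by
    intro g
    have h2 := ha (g.restrictScalars K) (res_restrict g)
    have h3 : D.rep K N (g.restrictScalars K) a = D.rep L N g a := rfl
    rw [← h3]
    exact h2
  have hq : ∀ b : D.W L, (Nat.card (N ≃ₐ[L] N) : ℂ)⁻¹ • b
      = (Nat.card (N ≃ₐ[L] N) : ℚ)⁻¹ • b := by
    intro b
    have h4 := rat_smul (W := D.W L) ((Nat.card (N ≃ₐ[L] N) : ℚ)⁻¹) b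
    rw [h4]
    push_cast
    rfl
  refine ⟨(Nat.card (N ≃ₐ[L] N) : ℂ)⁻¹ • D.dn L N a, ?_, fun h => ?_, fun h => ?_⟩
  · rw [map_smul, D.up_dn h1, smul_smul, inv_mul_cancel₀ hc, one_smul]
  · rw [hq]
    exact Submodule.smul_mem _ _ (D.dn_PP h)
  · rw [hq]
    exact Submodule.smul_mem _ _ (D.dn_QQ h)

/-- the isomorphism for a subextension -/
theorem iso_down {Λ : D.W N →ₗ[ℂ] D.W N} (hΛ : D.IsIso K N Λ) :
    ∃ Λ', D.IsIso K L Λ' ∧ ∀ a, Λ (D.up L N a) = D.up L N (Λ' a) := by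
  have hLN : IsGalois L N := IsGalois.tower_top_of_isGalois K L N
  have hc : (Nat.card (N ≃ₐ[L] N) : ℂ) ≠ 0 := by exact_mod_cast Nat.card_pos.ne'
  let Λ' : D.W L →ₗ[ℂ] D.W L := (Nat.card (N ≃ₐ[L] N) : ℂ)⁻¹ • (D.dn L N ∘ₗ Λ ∘ₗ D.up L N)
  have hinv : ∀ (a : D.W L) (g : N ≃ₐ[L] N), D.rep L N g (Λ (D.up L N a)) = Λ (D.up L N a) := by
    intro a g
    have h1 := hΛ.1 (g.restrictScalars K) (D.up L N a)
    rw [D.up_rep, res_restrict, map_one, Module.End.one_apply] at h1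
    exact h1.symm
  have hup : ∀ a, Λ (D.up L N a) = D.up L N (Λ' a) := by
    intro a
    change _ = D.up L N ((Nat.card (N ≃ₐ[L] N) : ℂ)⁻¹ • D.dn L N (Λ (D.up L N a)))
    rw [map_smul, D.up_dn (hinv a), smul_smul, inv_mul_cancel₀ hc, one_smul]
  refine ⟨Λ', ⟨?_, ?_, ?_⟩, hup⟩
  · intro g w
    obtain ⟨g', rfl⟩ := AlgEquiv.restrictNormalHom_surjective (F := K) (K₁ := L) N g
    apply D.up_inj (L := L) (N := N)
    rw [← hup, ← D.up_rep, hΛ.1, hup, D.up_rep]
  · intro a ha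
    obtain ⟨b, hb, -, h2⟩ := D.up_surj K (L := L) (Λ (D.up L N a)) (by
      intro h hh
      have h1 := hΛ.1 h (D.up L N a)
      rw [D.up_rep, hh, map_one, Module.End.one_apply] at h1
      exact h1.symm)
    have h3 : Λ' a = b := by
      apply D.up_inj (L := L) (N := N)
      rw [← hup, hb]
    rw [h3]
    exact h2 (hΛ.2.1 _ (D.up_PP ha))
  · intro h hh
    obtain ⟨a, ha, h1⟩ := hΛ.2.2 _ (D.up_QQ (N := N) hh)
    obtain ⟨b, hb, h2, -⟩ := D.up_surj K (L := L) a (by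
      intro g hg
      apply hΛ.inj (D.formQQ N)
      rw [hΛ.1, h1, D.up_rep, hg, map_one, Module.End.one_apply])
    refine ⟨b, h2 ha, ?_⟩
    apply D.up_inj (L := L) (N := N)
    rw [← hup, hb, h1]

end infl

section inv

variable (c : ArtinInvariant ℂˣ) (σ : ℂ ≃+* ℂ)

/-- `v` is the quotient `σ(R(χ) / c(χ)) / (R(χ^σ) / c(χ^σ))`, for all isomorphisms -/
def IsVal (K L : Type) [Field K] [NumberField K] [Field L] [NumberField L]
    [Algebra K L] [IsGalois K L] (χ : (L ≃ₐ[K] L) → ℂ) (v : ℂˣ) : Prop :=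
  ∀ Λ, D.IsIso K L Λ → ∀ r r' : ℂ, IsRg (D.rep K L) Λ χ r →
    IsRg (D.rep K L) Λ (fun g => σ (χ g)) r' →
      σ (r / (c.val K L χ : ℂˣ)) = v * (r' / (c.val K L (fun g => σ (χ g)) : ℂˣ))

variable {c σ}

section

variable {K L : Type} [Field K] [NumberField K] [Field L] [NumberField L] [Algebra K L]
  [IsGalois K L]

lemma fin_W : FiniteDimensional ℂ (D.W L) := (D.formPP L).fin

lemma rg_ne {Λ : D.W L →ₗ[ℂ] D.W L} (hΛ : D.IsIso K L Λ) {χ : (L ≃ₐ[K] L) → ℂ} {r : ℂ}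
    (h : IsRg (D.rep K L) Λ χ r) : r ≠ 0 := by
  have := D.fin_W (L := L)
  exact h.ne (hΛ.inj (D.formQQ L))

lemma isVal_of {χ : (L ≃ₐ[K] L) → ℂ} (h : IsChar χ) {Λ : D.W L →ₗ[ℂ] D.W L}
    (hΛ : D.IsIso K L Λ) {r r' : ℂ} (hr : IsRg (D.rep K L) Λ χ r)
    (hr' : IsRg (D.rep K L) Λ (fun g => σ (χ g)) r') {v : ℂˣ}
    (hv : σ (r / (c.val K L χ : ℂˣ)) = v * (r' / (c.val K L (fun g => σ (χ g)) : ℂˣ))) :
    D.IsVal c σ K L χ v := by
  intro Λ' hΛ' s s' hs hs'
  have h1 := IsRg.change (D.formPP L) (D.formQQ L) (fun g => D.rep_PP g) σ.toRingHom h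
    (isChar_sigma h σ.toRingHom) hΛ hΛ' hr hs hr' hs'
  change s' * σ r = r' * σ s at h1
  rw [map_div₀] at hv ⊢
  have e1 : σ ((c.val K L χ : ℂˣ) : ℂ) ≠ 0 := (map_ne_zero σ).mpr (Units.ne_zero _)
  have e2 : ((c.val K L (fun g => σ (χ g)) : ℂˣ) : ℂ) ≠ 0 := Units.ne_zero _
  have e3 : r' ≠ 0 := D.rg_ne hΛ hr'
  rw [div_eq_iff e1] at hv ⊢
  rw [hv] at h1
  apply mul_left_cancel₀ e3
  rw [← h1]
  field_simp

variable (c σ)

lemma exists_isVal {χ : (L ≃ₐ[K] L) → ℂ} (h : IsChar χ) : ∃ v, D.IsVal c σ K L χ v := by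
  obtain ⟨Λ, hΛ⟩ := D.exists_iso K L
  obtain ⟨r, hr⟩ := IsRg.exists hΛ.1 h
  obtain ⟨r', hr'⟩ := IsRg.exists hΛ.1 (isChar_sigma h σ.toRingHom)
  have n1 := D.rg_ne hΛ hr
  have n2 := D.rg_ne hΛ hr'
  have e1 : σ (r / (c.val K L χ : ℂˣ)) ≠ 0 :=
    (map_ne_zero σ).mpr (div_ne_zero n1 (Units.ne_zero _))
  have e2 : (r' / (c.val K L (fun g => σ (χ g)) : ℂˣ)) ≠ 0 := div_ne_zero n2 (Units.ne_zero _)
  refine ⟨Units.mk0 _ (div_ne_zero e1 e2), D.isVal_of h hΛ hr hr' ?_⟩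
  rw [Units.val_mk0, div_mul_cancel₀ _ e2]

variable {c σ}

lemma IsVal.unique {χ : (L ≃ₐ[K] L) → ℂ} (h : IsChar χ) {v v' : ℂˣ}
    (hv : D.IsVal c σ K L χ v) (hv' : D.IsVal c σ K L χ v') : v = v' := by
  obtain ⟨Λ, hΛ⟩ := D.exists_iso K L
  obtain ⟨r, hr⟩ := IsRg.exists hΛ.1 h
  obtain ⟨r', hr'⟩ := IsRg.exists hΛ.1 (isChar_sigma h σ.toRingHom)
  have n2 := D.rg_ne hΛ hr'
  have h1 := hv Λ hΛ r r' hr hr'
  rw [hv' Λ hΛ r r' hr hr'] at h1
  have e2 : (r' / (c.val K L (fun g => σ (χ g)) : ℂˣ)) ≠ 0 := div_ne_zero n2 (Units.ne_zero _)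
  exact (Units.ext (mul_right_cancel₀ e2 h1)).symm

end

variable (c σ)

open Classical in
/-- the value -/
noncomputable def sval (K L : Type) [Field K] [NumberField K] [Field L]
    [NumberField L] [Algebra K L] [IsGalois K L] (χ : (L ≃ₐ[K] L) → ℂ) : ℂˣ :=
  if h : ∃ v, D.IsVal c σ K L χ v then h.choose else 1

variable {c σ}

lemma sval_spec {K L : Type} [Field K] [NumberField K] [Field L] [NumberField L] [Algebra K L]
    [IsGalois K L] {χ : (L ≃ₐ[K] L) → ℂ} (h : IsChar χ) :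
    D.IsVal c σ K L χ (D.sval c σ K L χ) := by
  have h1 := D.exists_isVal c σ h
  rw [sval, dif_pos h1]
  exact h1.choose_spec

lemma sval_eq {K L : Type} [Field K] [NumberField K] [Field L] [NumberField L] [Algebra K L]
    [IsGalois K L] {χ : (L ≃ₐ[K] L) → ℂ} (h : IsChar χ) {v : ℂˣ}
    (hv : D.IsVal c σ K L χ v) : D.sval c σ K L χ = v :=
  IsVal.unique D h (D.sval_spec h) hv

variable (c σ)

/-- **The defect as an inductive invariant.** -/
noncomputable def inv : ArtinInvariant ℂˣ where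
  val K L _ _ _ _ _ _ χ := D.sval c σ K L χ
  val_add K L _ _ _ _ _ _ χ χ' h h' := by
    apply D.sval_eq (h.add h')
    have := D.fin_W (L := L)
    obtain ⟨Λ, hΛ⟩ := D.exists_iso K L
    obtain ⟨a, ha⟩ := IsRg.exists hΛ.1 h
    obtain ⟨b, hb⟩ := IsRg.exists hΛ.1 (isChar_sigma h σ.toRingHom)
    obtain ⟨a', ha'⟩ := IsRg.exists hΛ.1 h'
    obtain ⟨b', hb'⟩ := IsRg.exists hΛ.1 (isChar_sigma h' σ.toRingHom)
    obtain ⟨d, hd⟩ := IsRg.exists hΛ.1 (h.add h')
    obtain ⟨e, he⟩ := IsRg.exists hΛ.1 (isChar_sigma (h.add h') σ.toRingHom)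
    refine D.isVal_of (h.add h') hΛ hd he ?_
    have h1 : (fun g => σ ((χ + χ') g)) = (fun g => σ (χ g)) + (fun g => σ (χ' g)) := by
      funext g
      exact map_add σ _ _
    have he' : IsRg (D.rep K L) Λ ((fun g => σ (χ g)) + (fun g => σ (χ' g))) e := by
      rw [← h1]; exact he
    have s1 := D.sval_spec (c := c) (σ := σ) h Λ hΛ a b ha hb
    have s2 := D.sval_spec (c := c) (σ := σ) h' Λ hΛ a' b' ha' hb'
    have i2 : c.val K L (fun g => σ ((χ + χ') g))
        = c.val K L (fun g => σ (χ g)) * c.val K L (fun g => σ (χ' g)) := by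
      rw [h1]
      exact c.val_add K L _ _ (isChar_sigma h σ.toRingHom) (isChar_sigma h' σ.toRingHom)
    rw [ha.add ha' hd, hb.add hb' he', i2, c.val_add K L χ χ' h h',
      Units.val_mul, Units.val_mul, Units.val_mul, mul_div_mul_comm, mul_div_mul_comm, map_mul,
      s1, s2]
    ring
  val_infl K L N _ _ _ _ _ _ _ _ _ _ _ _ χ h := by
    have hN : IsChar (fun g : N ≃ₐ[K] N => χ (AlgEquiv.restrictNormalHom L g)) := by
      obtain ⟨V, _, _, _, ρ, rfl⟩ := h
      exact ⟨V, inferInstance, inferInstance, inferInstance,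
        ρ.comp (AlgEquiv.restrictNormalHom L), rfl⟩
    apply D.sval_eq hN
    have := D.fin_W (L := L)
    have := D.fin_W (L := N)
    obtain ⟨Λ, hΛ⟩ := D.exists_iso K N
    obtain ⟨Λ', hΛ', hup⟩ := D.iso_down (L := L) hΛ
    obtain ⟨r, hr⟩ := IsRg.exists hΛ'.1 h
    obtain ⟨s, hs⟩ := IsRg.exists hΛ'.1 (isChar_sigma h σ.toRingHom)
    obtain ⟨r', hr'⟩ := IsRg.exists hΛ.1 hN
    obtain ⟨s', hs'⟩ := IsRg.exists hΛ.1 (isChar_sigma hN σ.toRingHom)
    have key : ∀ {χ : (L ≃ₐ[K] L) → ℂ} {r r' : ℂ}, IsRg (D.rep K L) Λ' χ r →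
        IsRg (D.rep K N) Λ (fun g => χ (AlgEquiv.restrictNormalHom L g)) r' → r' = r := by
      intro χ r r' h h'
      have hLN : IsGalois L N := IsGalois.tower_top_of_isGalois K L N
      exact IsRg.infl (AlgEquiv.restrictNormalHom L) (AlgEquiv.restrictNormalHom_surjective N)
        (D.up L N) D.up_inj (fun g a => D.up_rep g a)
        (fun a ha => (D.up_surj K a ha).imp fun _ h => h.1) hup h h'
    have h1 : r' = r := key hr hr'
    have h2 : s' = s := key hs hs'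
    subst h1 h2
    have i1 := c.val_infl K L N χ h
    have i2 := c.val_infl K L N (fun g => σ (χ g)) (isChar_sigma h σ.toRingHom)
    refine D.isVal_of hN hΛ hr' hs' ?_
    rw [i1]
    change σ _ = _ * (_ / ((c.val K N (fun g => σ (χ (AlgEquiv.restrictNormalHom L g))) : ℂˣ) : ℂ))
    have i3 : c.val K N (fun g => σ (χ (AlgEquiv.restrictNormalHom L g)))
        = c.val K L (fun g => σ (χ g)) := i2
    rw [i3]
    exact D.sval_spec h Λ' hΛ' _ _ hr hs
  val_ind K F L _ _ _ _ _ _ _ _ _ _ _ _ χ h := by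
    have hi : IsChar (indChar K F L χ) := isChar_indChar h
    apply D.sval_eq hi
    have := D.fin_W (L := L)
    obtain ⟨Λ, hΛ⟩ := D.exists_iso K L
    have hΛ' : D.IsIso F L Λ := ⟨fun g w => hΛ.1 (g.restrictScalars K) w, hΛ.2.1, hΛ.2.2⟩
    obtain ⟨r, hr⟩ := IsRg.exists hΛ'.1 h
    obtain ⟨s, hs⟩ := IsRg.exists hΛ'.1 (isChar_sigma h σ.toRingHom)
    obtain ⟨r', hr'⟩ := IsRg.exists hΛ.1 hi
    obtain ⟨s', hs'⟩ := IsRg.exists hΛ.1 (isChar_sigma hi σ.toRingHom)
    have h0 : (fun g => σ.toRingHom (indChar K F L χ g))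
        = indChar K F L (fun g => σ.toRingHom (χ g)) := funext fun g => indChar_sigma _ _ _
    have hs'' := hs'
    rw [h0] at hs''
    have h1 : r' = r := IsRg.ind (K := K) (F := F) (fun g => rfl) hr hr'
    have h2 : s' = s := IsRg.ind (K := K) (F := F) (fun g => rfl) hs hs''
    subst h1 h2
    have i1 := c.val_ind K F L χ h
    have i2 := c.val_ind K F L (fun g => σ.toRingHom (χ g)) (isChar_sigma h σ.toRingHom)
    refine D.isVal_of hi hΛ hr' hs' ?_
    rw [i1]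
    have i3 : c.val K L (fun g => σ (indChar K F L χ g))
        = c.val F L (fun g => σ (χ g)) := by
      have h3 : (fun g => σ (indChar K F L χ g)) = indChar K F L (fun g => σ.toRingHom (χ g)) := h0
      rw [h3]
      exact i2
    rw [i3]
    exact D.sval_spec h Λ hΛ' _ _ hr hs

end inv

end Sys

end Pool.Agent.Run7.h375.BE
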