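import Mathlib
import Pool.Agent.Run7.h375.BE.Def
import Pool.Agent.Run7.h508.SQ.Fix

/-!
# Numbers fixed by all automorphisms, and the rational structure `B⁺`
-/

set_option autoImplicit false
set_option linter.unusedSectionVars false

namespace Pool.Agent.Run7.h375.BE

open NumberField Pool.Agent.K4H34.AL

/-- a number which is fixed by all automorphisms of `ℂ` is rational -/
theorem fixed_rat {α : ℂ} (h : ∀ σ : ℂ ≃+* ℂ, σ α = α) : ∃ q : ℚ, α = q := by
  classical
  by_cases halg : IsAlgebraic ℚ α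
  · have h1 : α ∈ (⊥ : IntermediateField ℚ ℂ) :=
      Pool.Agent.Run7.h508.SQ.mem_of_fixed ⊥ bot_le (mem_QB.mpr halg) fun σ _ => h σ
    obtain ⟨q, hq⟩ := IntermediateField.mem_bot.mp h1
    exact ⟨q, by rw [← hq]; simp⟩
  · exfalso
    have h0 : α ≠ 0 := by
      rintro rfl
      exact halg isAlgebraic_zero
    have h1 : AlgebraicIndepOn ℚ id ({α} : Set ℂ) := by
      have h2 : AlgebraicIndependent ℚ (fun _ : ({α} : Set ℂ) => α) :=
        algebraicIndependent_unique_type_iff.mpr halg
      have h3 : (fun x : ({α} : Set ℂ) => (x : ℂ)) = fun _ => α := funext fun x => x.2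
      change AlgebraicIndependent ℚ (fun x : ({α} : Set ℂ) => (x : ℂ))
      rw [h3]
      exact h2
    obtain ⟨t, ht, hv⟩ := exists_isTranscendenceBasis_superset h1
    let v : t → ℂ := Subtype.val
    let S := Algebra.adjoin ℚ (Set.range v)
    have hS : IsAlgClosure S ℂ := IsAlgClosed.isAlgClosure_of_transcendence_basis v hv
    let f : MvPolynomial t ℚ →ₐ[ℚ] MvPolynomial t ℚ :=
      MvPolynomial.aeval (fun i => -MvPolynomial.X i)
    have hff : f.comp f = AlgHom.id ℚ _ := by
      apply MvPolynomial.algHom_ext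
      intro i
      rw [AlgHom.comp_apply, MvPolynomial.aeval_X, map_neg, MvPolynomial.aeval_X, neg_neg]
      rfl
    let fe : MvPolynomial t ℚ ≃ₐ[ℚ] MvPolynomial t ℚ := AlgEquiv.ofAlgHom f f hff hff
    let e : S ≃+* S := ((hv.1.aevalEquiv.symm.trans fe).trans hv.1.aevalEquiv).toRingEquiv
    let a : t := ⟨α, ht rfl⟩
    let s : S := hv.1.aevalEquiv (MvPolynomial.X a)
    have hs : algebraMap S ℂ s = α := by
      have h4 := hv.1.algebraMap_aevalEquiv (MvPolynomial.X a)
      rw [MvPolynomial.aeval_X] at h4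
      exact h4
    have hes : e s = -s := by
      change hv.1.aevalEquiv (fe (hv.1.aevalEquiv.symm (hv.1.aevalEquiv (MvPolynomial.X a)))) = _
      rw [AlgEquiv.symm_apply_apply]
      change hv.1.aevalEquiv (f (MvPolynomial.X a)) = _
      rw [MvPolynomial.aeval_X, map_neg]
    have h5 := IsAlgClosure.equivOfEquiv_algebraMap ℂ ℂ e s
    rw [hes, map_neg, hs, h] at h5
    exact h0 (self_eq_neg.mp h5)

section forms

variable (k : ℕ) (L : Type) [Field L] [NumberField L]

/-- the rational functions -/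
def BQ : Submodule ℚ ((L →+* ℂ) → ℚ) where
  carrier := {b | ∀ τ, b (ComplexEmbedding.conjugate τ) = (-1) ^ (k - 1) * b τ}
  zero_mem' := fun τ => by simp
  add_mem' := by
    intro a b ha hb τ
    rw [Pi.add_apply, ha τ, hb τ, Pi.add_apply, mul_add]
  smul_mem' := by
    intro c a ha τ
    rw [Pi.smul_apply, ha τ, Pi.smul_apply, smul_eq_mul, smul_eq_mul]
    ring

variable {k L}

/-- the power of `2πi` -/
noncomputable def uu (k : ℕ) : ℂ := (2 * Real.pi * Complex.I) ^ (k - 1)

lemma uu_ne (k : ℕ) : uu k ≠ 0 := by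
  apply pow_ne_zero
  refine mul_ne_zero (mul_ne_zero two_ne_zero ?_) Complex.I_ne_zero
  exact_mod_cast Real.pi_ne_zero

/-- rational functions times the power of `2πi` -/
noncomputable def toV (x : (L →+* ℂ) → ℚ) : V L := fun τ => ((x τ : ℚ) : ℂ) * uu k

lemma toV_mem {x : (L →+* ℂ) → ℚ} (hx : x ∈ BQ k L) : toV (k := k) x ∈ BPlus k L := by
  refine ⟨fun τ => ?_, fun τ => ⟨x τ, rfl⟩⟩
  change ((x (ComplexEmbedding.conjugate τ) : ℚ) : ℂ) * uu k = (-1) ^ (k - 1) * (((x τ : ℚ) : ℂ) * uu k)
  rw [hx τ]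
  push_cast
  ring

lemma exists_toV {a : V L} (ha : a ∈ BPlus k L) : ∃ x ∈ BQ k L, a = toV (k := k) x := by
  obtain ⟨h1, h2⟩ := ha
  choose x hx using h2
  refine ⟨x, fun τ => ?_, funext hx⟩
  have h3 := h1 τ
  rw [hx, hx] at h3
  have h4 : ((x (ComplexEmbedding.conjugate τ) : ℚ) : ℂ) = (((-1) ^ (k - 1) * x τ : ℚ) : ℂ) := by
    apply mul_right_cancel₀ (uu_ne k)
    push_cast
    rw [mul_assoc]
    exact h3
  exact_mod_cast h4

lemma toV_sum {n : ℕ} (q : Fin n → ℚ) (x : Fin n → ((L →+* ℂ) → ℚ)) :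
    toV (k := k) (∑ i, q i • x i) = ∑ i, q i • toV (k := k) (x i) := by
  funext τ
  change (((∑ i, q i • x i) τ : ℚ) : ℂ) * uu k = (∑ i, q i • toV (k := k) (x i)) τ
  rw [Finset.sum_apply, Finset.sum_apply, Rat.cast_sum, Finset.sum_mul]
  refine Finset.sum_congr rfl fun i _ => ?_
  rw [Pi.smul_apply, Pi.smul_apply, smul_eq_mul, Rat.smul_def]
  unfold toV
  push_cast
  ring

variable (k L)

theorem form_B : IsRatForm (BPlus k L) (VPlus k L) := by
  classical
  let bq := Module.finBasis ℚ (BQ k L)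
  let b : Fin (Module.finrank ℚ (BQ k L)) → V L := fun i => toV (k := k) (bq i).1
  have hrep : ∀ x ∈ BQ k L, toV (k := k) x ∈ Submodule.span ℚ (Set.range b) := by
    intro x hx
    rw [Submodule.mem_span_range_iff_exists_fun]
    refine ⟨fun i => bq.repr ⟨x, hx⟩ i, ?_⟩
    have h1 := congrArg Subtype.val (bq.sum_repr ⟨x, hx⟩)
    rw [AddSubmonoidClass.coe_finsetSum] at h1
    have h2 := toV_sum (k := k) (fun i => bq.repr ⟨x, hx⟩ i) (fun i => (bq i).1)
    rw [← h2]
    congr 1
  have hQ : Submodule.span ℚ (Set.range b) = BPlus k L := by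
    apply le_antisymm
    · rw [Submodule.span_le]
      rintro a ⟨i, rfl⟩
      exact toV_mem (bq i).2
    · intro a ha
      obtain ⟨x, hx, rfl⟩ := exists_toV ha
      exact hrep x hx
  have hε : ((-1 : ℂ) ^ (k - 1)) * (-1) ^ (k - 1) = 1 := by
    rw [← mul_pow]; simp
  have hC : Submodule.span ℂ (Set.range b) = VPlus k L := by
    apply le_antisymm
    · rw [Submodule.span_le]
      rintro a ⟨i, rfl⟩
      exact (toV_mem (bq i).2).1
    · intro a ha
      let δ : (L →+* ℂ) → ((L →+* ℂ) → ℚ) := fun τ σ =>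
        (if σ = τ then 1 else 0) + (-1) ^ (k - 1) * (if σ = ComplexEmbedding.conjugate τ then 1 else 0)
      have hδ : ∀ τ, δ τ ∈ BQ k L := by
        intro τ σ
        have e1 : ComplexEmbedding.conjugate σ = τ ↔ σ = ComplexEmbedding.conjugate τ := by
          constructor
          · rintro rfl; exact (ComplexEmbedding.involutive_conjugate L σ).symm
          · rintro rfl; exact ComplexEmbedding.involutive_conjugate L τ
        have e2 : ComplexEmbedding.conjugate σ = ComplexEmbedding.conjugate τ ↔ σ = τ :=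
          (ComplexEmbedding.involutive_conjugate L).injective.eq_iff
        have hε' : ((-1 : ℚ) ^ (k - 1)) * (-1) ^ (k - 1) = 1 := by
          rw [← mul_pow]; simp
        change (if ComplexEmbedding.conjugate σ = τ then (1 : ℚ) else 0) + (-1) ^ (k - 1)
          * (if ComplexEmbedding.conjugate σ = ComplexEmbedding.conjugate τ then 1 else 0)
          = (-1) ^ (k - 1) * ((if σ = τ then 1 else 0)
            + (-1) ^ (k - 1) * (if σ = ComplexEmbedding.conjugate τ then 1 else 0))
        simp only [e1, e2]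
        rw [mul_add, ← mul_assoc, hε']
        ring
      have h1 : a = ∑ τ : L →+* ℂ, (a τ / (2 * uu k)) • toV (k := k) (δ τ) := by
        funext σ
        rw [Finset.sum_apply]
        have h2 : ∀ τ : L →+* ℂ, ((a τ / (2 * uu k)) • toV (k := k) (δ τ)) σ
            = (if σ = τ then a τ / 2 else 0)
              + (if ComplexEmbedding.conjugate σ = τ then (-1) ^ (k - 1) * a τ / 2 else 0) := by
          intro τ
          have e1 : ComplexEmbedding.conjugate σ = τ ↔ σ = ComplexEmbedding.conjugate τ := by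
            constructor
            · rintro rfl; exact (ComplexEmbedding.involutive_conjugate L σ).symm
            · rintro rfl; exact ComplexEmbedding.involutive_conjugate L τ
          have hu := uu_ne k
          simp only [e1]
          change (a τ / (2 * uu k)) * ((((if σ = τ then (1 : ℚ) else 0) + (-1) ^ (k - 1)
            * (if σ = ComplexEmbedding.conjugate τ then 1 else 0) : ℚ) : ℂ) * uu k) = _
          push_cast
          by_cases c1 : σ = τ <;> by_cases c2 : σ = ComplexEmbedding.conjugate τ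
          · rw [if_pos c1, if_pos c2, if_pos c1, if_pos c2]
            push_cast
            field_simp
          · rw [if_pos c1, if_neg c2, if_pos c1, if_neg c2]; field_simp; ring
          · rw [if_neg c1, if_pos c2, if_neg c1, if_pos c2]; field_simp; ring
          · rw [if_neg c1, if_neg c2, if_neg c1, if_neg c2]; ring
        rw [Finset.sum_congr rfl fun τ _ => h2 τ, Finset.sum_add_distrib,
          Finset.sum_ite_eq, Finset.sum_ite_eq, if_pos (Finset.mem_univ _),
          if_pos (Finset.mem_univ _), ha σ, ← mul_assoc, hε]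
        ring
      rw [h1]
      exact Submodule.sum_mem _ fun τ _ => Submodule.smul_mem _ _
        (Submodule.span_le_restrictScalars ℚ ℂ _ (hrep _ (hδ τ)))
  refine ⟨_, b, ?_, hC, hQ⟩
  rw [Fintype.linearIndependent_iff]
  intro g hg i
  rw [← Module.forall_dual_apply_eq_zero_iff ℚ (g i)]
  intro f
  have h1 : ∑ i, f (g i) • bq i = 0 := by
    apply Subtype.ext
    rw [AddSubmonoidClass.coe_finsetSum]
    funext τ
    rw [Finset.sum_apply]
    have h2 : ∑ i, g i * (((bq i).1 τ : ℚ) : ℂ) = 0 := by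
      have h3 := congrFun hg τ
      rw [Finset.sum_apply] at h3
      have h4 : (∑ i, g i * (((bq i).1 τ : ℚ) : ℂ)) * uu k = 0 := by
        rw [Finset.sum_mul]
        refine Eq.trans ?_ h3
        refine Finset.sum_congr rfl fun i _ => ?_
        change _ = g i * ((((bq i).1 τ : ℚ) : ℂ) * uu k)
        ring
      exact (mul_eq_zero.mp h4).resolve_right (uu_ne k)
    have h3 := congrArg f h2
    rw [map_sum, map_zero] at h3
    refine Eq.trans ?_ h3
    refine Finset.sum_congr rfl fun i _ => ?_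
    have h5 : g i * (((bq i).1 τ : ℚ) : ℂ) = ((bq i).1 τ : ℚ) • g i := by
      rw [Rat.smul_def, mul_comm]
    rw [h5, map_smul]
    change f (g i) * (bq i).1 τ = (bq i).1 τ * f (g i)
    ring
  exact Fintype.linearIndependent_iff.mp bq.linearIndependent _ h1 i

variable {k L} {F : Type} [Field F] [NumberField F]

lemma pull_B (f : F →+* L) {a : V F} (ha : a ∈ BPlus k F) : pull f a ∈ BPlus k L :=
  ⟨fun τ => ha.1 (τ.comp f), fun τ => ha.2 (τ.comp f)⟩

lemma push_plus (f : F →+* L) {b : V L} (hb : b ∈ VPlus k L) : push f b ∈ VPlus k F := by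
  intro σ
  have h1 := finsum_mem_eq_of_bijOn (s := {τ : L →+* ℂ | τ.comp f = σ})
    (t := {τ : L →+* ℂ | τ.comp f = ComplexEmbedding.conjugate σ})
    (f := fun τ => (-1) ^ (k - 1) * b τ) (g := b) (fun τ => ComplexEmbedding.conjugate τ) ?_
    (fun τ _ => (hb τ).symm)
  · change (∑ᶠ (τ : L →+* ℂ) (_ : τ ∈ {τ : L →+* ℂ | τ.comp f = ComplexEmbedding.conjugate σ}),
      b τ) = (-1) ^ (k - 1) * ∑ᶠ (τ : L →+* ℂ) (_ : τ ∈ {τ : L →+* ℂ | τ.comp f = σ}), b τ
    rw [← h1, mul_finsum_mem]
  · refine ⟨fun τ hτ => ?_, fun τ _ τ' _ h => (ComplexEmbedding.involutive_conjugate L).injective h,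
      fun τ hτ => ⟨ComplexEmbedding.conjugate τ, ?_, ComplexEmbedding.involutive_conjugate L τ⟩⟩
    · change (ComplexEmbedding.conjugate τ).comp f = _
      have h2 : τ.comp f = σ := hτ
      rw [← h2]
      rfl
    · change (ComplexEmbedding.conjugate τ).comp f = σ
      have h2 : τ.comp f = ComplexEmbedding.conjugate σ := hτ
      have h3 : (ComplexEmbedding.conjugate τ).comp f = ComplexEmbedding.conjugate (τ.comp f) := rfl
      rw [h3, h2, ComplexEmbedding.involutive_conjugate F σ]

lemma push_B (f : F →+* L) {b : V L} (hb : b ∈ BPlus k L) : push f b ∈ BPlus k F := by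
  refine ⟨push_plus f hb.1, fun σ => ?_⟩
  choose q hq using hb.2
  refine ⟨∑ᶠ (τ : L →+* ℂ) (_ : τ ∈ {τ : L →+* ℂ | τ.comp f = σ}), q τ, ?_⟩
  have hfin : ({τ : L →+* ℂ | τ.comp f = σ}).Finite := Set.toFinite _
  change (∑ᶠ (τ : L →+* ℂ) (_ : τ ∈ {τ : L →+* ℂ | τ.comp f = σ}), b τ) = _
  rw [finsum_mem_eq_finite_toFinset_sum _ hfin, finsum_mem_eq_finite_toFinset_sum _ hfin,
    Rat.cast_sum, Finset.sum_mul]
  exact Finset.sum_congr rfl fun τ _ => hq τ

end forms

end Pool.Agent.Run7.h375.BE
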