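import Mathlib
import Pool.Agent.K4H34.ST.Main3
import Pool.Agent.K4H74.SC.Inst
import Pool.Agent.K4H74.ST.Ext

/-!
# The twist of an inductive invariant by the character of `ℚ(i)`
-/

set_option autoImplicit false
set_option linter.unusedSectionVars false

namespace Pool.Agent.Run7.h375.BE

open NumberField NumberField.ComplexEmbedding Pool.Agent.K4H74.ST
open Pool.Agent.K4H34.ST (isChar_twist)
open Pool.Agent.K4H74.SC (isChar_indChar)

section amalg

/-- two Galois extensions of `K` which contain `L` are contained in a third one -/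
theorem amalg (K L N N' : Type) [Field K] [NumberField K] [Field L] [NumberField L] [Field N]
    [NumberField N] [Field N'] [NumberField N'] [Algebra K L] [Algebra L N] [Algebra K N]
    [IsScalarTower K L N] [Algebra L N'] [Algebra K N'] [IsScalarTower K L N'] [IsGalois K N]
    [IsGalois K N'] :
    ∃ (R : Type) (_ : Field R) (_ : NumberField R) (_ : Algebra K R) (_ : Algebra L R)
      (_ : Algebra N R) (_ : Algebra N' R) (_ : IsScalarTower K N R) (_ : IsScalarTower K N' R)
      (_ : IsScalarTower L N R) (_ : IsScalarTower L N' R), IsGalois K R := by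
  have hf1 : FiniteDimensional L N' := Module.Finite.of_restrictScalars_finite ℚ L N'
  have hf2 : FiniteDimensional K N := Module.Finite.of_restrictScalars_finite ℚ K N
  have hf3 : FiniteDimensional K N' := Module.Finite.of_restrictScalars_finite ℚ K N'
  let Ω := AlgebraicClosure N
  let f : N →ₐ[K] Ω := IsScalarTower.toAlgHom K N Ω
  let g0 : N' →ₐ[L] Ω := IsAlgClosed.lift
  have htow : IsScalarTower K L Ω := IsScalarTower.of_algebraMap_eq fun x => by
    rw [IsScalarTower.algebraMap_apply K N Ω, IsScalarTower.algebraMap_apply L N Ω,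
      ← IsScalarTower.algebraMap_apply K L N]
  let g : N' →ₐ[K] Ω := g0.restrictScalars K
  let R : IntermediateField K Ω := f.fieldRange ⊔ g.fieldRange
  have e1 : N ≃ₐ[K] f.fieldRange := AlgEquiv.ofInjectiveField f
  have e2 : N' ≃ₐ[K] g.fieldRange := AlgEquiv.ofInjectiveField g
  have n1 : Normal K f.fieldRange := Normal.of_algEquiv e1
  have n2 : Normal K g.fieldRange := Normal.of_algEquiv e2
  have d1 : FiniteDimensional K f.fieldRange := e1.toLinearEquiv.finiteDimensional
  have d2 : FiniteDimensional K g.fieldRange := e2.toLinearEquiv.finiteDimensional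
  have hR1 : Normal K R := IntermediateField.normal_sup K Ω f.fieldRange g.fieldRange
  have hR2 : FiniteDimensional K R := IntermediateField.finiteDimensional_sup _ _
  have hR3 : IsGalois K R := { }
  have hfinQ : FiniteDimensional ℚ R := FiniteDimensional.trans ℚ K R
  have hc0 : CharZero R := charZero_of_injective_algebraMap (algebraMap K R).injective
  have hR4 : NumberField R := { to_charZero := hc0, to_finiteDimensional := hfinQ }
  let fR : N →ₐ[K] R := f.codRestrict R.toSubalgebra (fun x =>
    (le_sup_left : f.fieldRange ≤ R) ⟨x, rfl⟩)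
  let gR : N' →ₐ[K] R := g.codRestrict R.toSubalgebra (fun x =>
    (le_sup_right : g.fieldRange ≤ R) ⟨x, rfl⟩)
  let i1 : Algebra N R := fR.toRingHom.toAlgebra
  let i2 : Algebra N' R := gR.toRingHom.toAlgebra
  let i3 : Algebra L R := ((algebraMap N R).comp (algebraMap L N)).toAlgebra
  have t1 : IsScalarTower K N R := IsScalarTower.of_algebraMap_eq fun x => (fR.commutes x).symm
  have t2 : IsScalarTower K N' R := IsScalarTower.of_algebraMap_eq fun x => (gR.commutes x).symm
  have t3 : IsScalarTower L N R := IsScalarTower.of_algebraMap_eq fun x => rfl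
  have t4 : IsScalarTower L N' R := IsScalarTower.of_algebraMap_eq fun x => by
    apply Subtype.ext
    change algebraMap N Ω (algebraMap L N x) = g0 (algebraMap L N' x)
    rw [g0.commutes]
    rfl
  exact ⟨R, inferInstance, hR4, inferInstance, i3, i1, i2, t1, t2, t3, t4, hR3⟩

end amalg

section sgn

variable {K N : Type} [Field K] [NumberField K] [Field N] [NumberField N] [Algebra K N]

/-- the character of `K(i) / K` -/
noncomputable def sJ (K : Type) {N : Type} [Field K] [NumberField K] [Field N] [NumberField N]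
    [Algebra K N] (j : N) (hj : j * j = -1) : (N ≃ₐ[K] N) →* ℂˣ :=
  sgnHom j (fun g => by rw [hj, map_neg, map_one])

lemma sJ_sg {j : N} (hj : j * j = -1) : Sg (sJ K j hj) := sgnHom_sg _ _

lemma sJ_eq_one {j : N} (hj : j * j = -1) {g : N ≃ₐ[K] N} : sJ K j hj g = 1 ↔ g j = j :=
  sgn_eq_one

lemma sJ_sq {j : N} (hj : j * j = -1) (g : N ≃ₐ[K] N) : sJ K j hj g * sJ K j hj g = 1 := by
  rcases sJ_sg hj g with h | h <;> rw [h]
  · rw [one_mul]
  · rw [neg_mul_neg, one_mul]

lemma j_ne {j : N} (hj : j * j = -1) : j ≠ -j := by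
  intro h2
  have h3 : j = 0 := self_eq_neg.mp h2
  rw [h3, mul_zero] at hj
  exact one_ne_zero (neg_eq_zero.mp hj.symm)

lemma sJ_cc {j : N} (hj : j * j = -1) {c : N ≃ₐ[K] N} (hc : c ∈ CC K N) :
    sJ K j hj c = -1 := by
  obtain ⟨φ, hφ⟩ := hc
  change sgn j c = -1
  have h1 : c j = - j := by
    refine sqrt_neg hφ ?_ ?_
    · rw [hj, map_neg, map_one]; simp
    · rw [hj, map_neg, map_one]; simp
  rw [sgn_eq_neg, h1]
  exact (j_ne hj).symm

/-- compatibility with restriction -/
lemma sJ_res {N' R : Type} [Field N'] [NumberField N'] [Field R] [NumberField R] [Algebra K N']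
    [Algebra K R] [Algebra N R] [Algebra N' R] [IsScalarTower K N R] [IsScalarTower K N' R]
    [IsGalois K N] [IsGalois K N'] {j : N} (hj : j * j = -1) {j' : N'} (hj' : j' * j' = -1)
    (g : R ≃ₐ[K] R) : sJ K j hj (AlgEquiv.restrictNormalHom N g)
      = sJ K j' hj' (AlgEquiv.restrictNormalHom N' g) := by
  have h1 : algebraMap N R j = algebraMap N' R j' ∨ algebraMap N R j = - algebraMap N' R j' := by
    rw [← mul_self_eq_mul_self_iff, ← map_mul, ← map_mul, hj, hj', map_neg, map_neg, map_one,
      map_one]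
  have h2 : (AlgEquiv.restrictNormalHom N g) j = j ↔ g (algebraMap N R j) = algebraMap N R j := by
    have h := AlgEquiv.restrictNormal_commutes g N j
    change algebraMap N R (AlgEquiv.restrictNormalHom N g j) = _ at h
    rw [← h]
    exact (algebraMap N R).injective.eq_iff.symm
  have h3 : (AlgEquiv.restrictNormalHom N' g) j' = j'
      ↔ g (algebraMap N' R j') = algebraMap N' R j' := by
    have h := AlgEquiv.restrictNormal_commutes g N' j'
    change algebraMap N' R (AlgEquiv.restrictNormalHom N' g j') = _ at h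
    rw [← h]
    exact (algebraMap N' R).injective.eq_iff.symm
  have h4 : g (algebraMap N R j) = algebraMap N R j
      ↔ g (algebraMap N' R j') = algebraMap N' R j' := by
    rcases h1 with h1 | h1
    · rw [h1]
    · rw [h1, map_neg, neg_inj]
  have h5 : sJ K j hj (AlgEquiv.restrictNormalHom N g) = 1
      ↔ sJ K j' hj' (AlgEquiv.restrictNormalHom N' g) = 1 := by
    rw [sJ_eq_one, sJ_eq_one, h2, h3, h4]
  rcases sJ_sg hj (AlgEquiv.restrictNormalHom N g) with h | h
  · rw [h, (h5.mp h)]
  · rcases sJ_sg hj' (AlgEquiv.restrictNormalHom N' g) with h' | h'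
    · rw [h5.mpr h', h']
    · rw [h, h']

end sgn

section twc

variable {K L N : Type} [Field K] [NumberField K] [Field L] [NumberField L] [Field N]
  [NumberField N] [Algebra K L] [Algebra L N] [Algebra K N] [IsScalarTower K L N] [IsGalois K L]
  [IsGalois K N]

/-- the twisted character -/
noncomputable def twc (j : N) (hj : j * j = -1) (χ : (L ≃ₐ[K] L) → ℂ) : (N ≃ₐ[K] N) → ℂ :=
  fun g => ((sJ K j hj g : ℂˣ) : ℂ) * χ (AlgEquiv.restrictNormalHom L g)

lemma isChar_twc {j : N} (hj : j * j = -1) {χ : (L ≃ₐ[K] L) → ℂ} (h : IsChar χ) :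
    IsChar (twc j hj χ) :=
  isChar_twist (sJ K j hj) (Pool.Agent.K4H77.SL.IsChar.comp h (AlgEquiv.restrictNormalHom L))

lemma res_res {R : Type} [Field R] [NumberField R] [Algebra K R] [Algebra L R] [Algebra N R]
    [IsScalarTower K N R] [IsScalarTower L N R] [IsScalarTower K L R] (g : R ≃ₐ[K] R) :
    AlgEquiv.restrictNormalHom L (AlgEquiv.restrictNormalHom N g)
      = AlgEquiv.restrictNormalHom L g := by
  ext x
  apply (algebraMap L N).injective
  apply (algebraMap N R).injective
  have h1 := AlgEquiv.restrictNormal_commutes (AlgEquiv.restrictNormalHom N g) L x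
  change algebraMap L N (AlgEquiv.restrictNormalHom L (AlgEquiv.restrictNormalHom N g) x) = _ at h1
  have h2 := AlgEquiv.restrictNormal_commutes g N (algebraMap L N x)
  change algebraMap N R (AlgEquiv.restrictNormalHom N g (algebraMap L N x)) = _ at h2
  have h3 := AlgEquiv.restrictNormal_commutes g L x
  change algebraMap L R (AlgEquiv.restrictNormalHom L g x) = _ at h3
  rw [h1, h2, ← IsScalarTower.algebraMap_apply L N R, ← IsScalarTower.algebraMap_apply L N R, h3]

end twc

section tw

variable {M : Type} [CommGroup M] (A : ArtinInvariant M)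

variable {K L : Type} [Field K] [NumberField K] [Field L] [NumberField L] [Algebra K L]
  [IsGalois K L]

/-- the value does not depend on the choices -/
lemma tw_indep {χ : (L ≃ₐ[K] L) → ℂ} (hχ : IsChar χ) {N N' : Type} [Field N] [NumberField N]
    [Algebra K N] [Algebra L N] [IsScalarTower K L N] [IsGalois K N] [Field N'] [NumberField N']
    [Algebra K N'] [Algebra L N'] [IsScalarTower K L N'] [IsGalois K N'] {j : N}
    (hj : j * j = -1) {j' : N'} (hj' : j' * j' = -1) :
    A.val K N (twc j hj χ) = A.val K N' (twc j' hj' χ) := by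
  obtain ⟨R, i1, i2, i3, i4, i5, i6, i7, i8, i9, i10, i11⟩ := amalg K L N N'
  have t1 : IsScalarTower K L R := IsScalarTower.of_algebraMap_eq fun x => by
    rw [IsScalarTower.algebraMap_apply K N R, IsScalarTower.algebraMap_apply L N R,
      ← IsScalarTower.algebraMap_apply K L N]
  rw [← A.val_infl K N R _ (isChar_twc hj hχ), ← A.val_infl K N' R _ (isChar_twc hj' hχ)]
  congr 1
  funext g
  unfold twc
  rw [sJ_res hj hj' g, res_res (L := L) (N := N) g, res_res (L := L) (N := N') g]

/-- `v` is the value of the twisted invariant -/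
def IsTwVal (K L : Type) [Field K] [NumberField K] [Field L] [NumberField L] [Algebra K L]
    [IsGalois K L] (χ : (L ≃ₐ[K] L) → ℂ) (v : M) : Prop :=
  ∀ (N : Type) [Field N] [NumberField N] [Algebra K N] [Algebra L N] [IsScalarTower K L N]
    [IsGalois K N] (j : N) (hj : j * j = -1), A.val K N (twc j hj χ) = v

lemma exists_twVal {χ : (L ≃ₐ[K] L) → ℂ} (hχ : IsChar χ) : ∃ v, IsTwVal A K L χ v := by
  obtain ⟨N, i1, i2, i3, i4, i5, i6, hN⟩ := exists_ext K L {-1}
  obtain ⟨j, hj⟩ := hN (-1) (by simp)
  rw [map_neg, map_one] at hj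
  exact ⟨_, fun N' _ _ _ _ _ _ j' hj' => tw_indep A hχ hj' hj⟩

open Classical in
/-- the value of the twisted invariant -/
noncomputable def twval (K L : Type) [Field K] [NumberField K] [Field L] [NumberField L]
    [Algebra K L] [IsGalois K L] (χ : (L ≃ₐ[K] L) → ℂ) : M :=
  if h : ∃ v, IsTwVal A K L χ v then h.choose else 1

lemma twval_eq {χ : (L ≃ₐ[K] L) → ℂ} (hχ : IsChar χ) (N : Type) [Field N] [NumberField N]
    [Algebra K N] [Algebra L N] [IsScalarTower K L N] [IsGalois K N] {j : N} (hj : j * j = -1) :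
    twval A K L χ = A.val K N (twc j hj χ) := by
  have h := exists_twVal A hχ
  rw [twval, dif_pos h]
  exact (h.choose_spec N j hj).symm

end tw

section ind

variable {K F L P : Type} [Field K] [NumberField K] [Field F] [NumberField F] [Field L]
  [NumberField L] [Field P] [NumberField P] [Algebra K F] [Algebra F L] [Algebra K L]
  [IsScalarTower K F L] [IsGalois K L] [IsGalois F L] [Algebra L P] [Algebra K P] [Algebra F P]
  [IsScalarTower K L P] [IsScalarTower F L P] [IsScalarTower K F P] [IsGalois K P] [IsGalois F P]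

/-- twists and inflations of induced characters -/
lemma indChar_twist (s : (P ≃ₐ[K] P) →* ℂˣ) (χ : (L ≃ₐ[F] L) → ℂ) (g : P ≃ₐ[K] P) :
    indChar K F P (fun h => ((s (h.restrictScalars K) : ℂˣ) : ℂ)
      * χ (AlgEquiv.restrictNormalHom L h)) g
      = ((s g : ℂˣ) : ℂ) * indChar K F L χ (AlgEquiv.restrictNormalHom L g) := by
  classical
  have hfin1 : FiniteDimensional K P := Module.Finite.of_restrictScalars_finite ℚ K P
  have hfin2 : FiniteDimensional F P := Module.Finite.of_restrictScalars_finite ℚ F P
  have hfin3 : FiniteDimensional K L := Module.Finite.of_restrictScalars_finite ℚ K L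
  have hfin4 : FiniteDimensional F L := Module.Finite.of_restrictScalars_finite ℚ F L
  have hfin5 : FiniteDimensional L P := Module.Finite.of_restrictScalars_finite ℚ L P
  have hft : Fintype (P ≃ₐ[K] P) := Fintype.ofFinite _
  have hft' : Fintype (L ≃ₐ[K] L) := Fintype.ofFinite _
  let π : (P ≃ₐ[K] P) →* (L ≃ₐ[K] L) := AlgEquiv.restrictNormalHom L
  have hπ : Function.Surjective π := AlgEquiv.restrictNormalHom_surjective P
  let T : (P ≃ₐ[K] P) → ℂ := fun x =>
    ∑ᶠ (h : P ≃ₐ[F] P) (_ : h.restrictScalars K = x⁻¹ * g * x),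
      ((s (h.restrictScalars K) : ℂˣ) : ℂ) * χ (AlgEquiv.restrictNormalHom L h)
  let T' : (L ≃ₐ[K] L) → ℂ := fun y =>
    ∑ᶠ (h : L ≃ₐ[F] L) (_ : h.restrictScalars K = y⁻¹ * π g * y), χ h
  have hrs : ∀ {h h' : P ≃ₐ[F] P}, h.restrictScalars K = h'.restrictScalars K → h = h' := by
    intro h h' e
    ext x
    exact AlgEquiv.congr_fun e x
  have hrs' : ∀ {h h' : L ≃ₐ[F] L}, h.restrictScalars K = h'.restrictScalars K → h = h' := by
    intro h h' e
    ext x
    exact AlgEquiv.congr_fun e x
  have hres : ∀ h : P ≃ₐ[F] P, π (h.restrictScalars K)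
      = (AlgEquiv.restrictNormalHom L h).restrictScalars K := by
    intro h
    ext x
    apply (algebraMap L P).injective
    have h1 := AlgEquiv.restrictNormal_commutes (h.restrictScalars K) L x
    change algebraMap L P (π (h.restrictScalars K) x) = _ at h1
    rw [h1]
    exact (AlgEquiv.restrictNormal_commutes h L x).symm
  have hTT : ∀ x, T x = ((s g : ℂˣ) : ℂ) * T' (π x) := by
    intro x
    by_cases hx : ∃ h : P ≃ₐ[F] P, h.restrictScalars K = x⁻¹ * g * x
    · obtain ⟨h, hh⟩ := hx
      have e1 : T x = ((s (h.restrictScalars K) : ℂˣ) : ℂ)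
          * χ (AlgEquiv.restrictNormalHom L h) := by
        change (∑ᶠ (h : P ≃ₐ[F] P) (_ : h.restrictScalars K = x⁻¹ * g * x), _) = _
        rw [finsum_eq_single _ h]
        · exact finsum_eq_single _ hh (fun h1 h2 => absurd rfl h2)
        · intro h' hne
          exact @finsum_of_isEmpty _ _ _ ⟨fun h1 => hne (hrs (h1.trans hh.symm))⟩ _
      have hh' : (AlgEquiv.restrictNormalHom L h).restrictScalars K
          = (π x)⁻¹ * π g * π x := by
        rw [← hres, hh, map_mul, map_mul, map_inv]
      have e2 : T' (π x) = χ (AlgEquiv.restrictNormalHom L h) := by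
        change (∑ᶠ (h : L ≃ₐ[F] L) (_ : h.restrictScalars K = (π x)⁻¹ * π g * π x), _) = _
        rw [finsum_eq_single _ (AlgEquiv.restrictNormalHom L h)]
        · exact finsum_eq_single _ hh' (fun h1 h2 => absurd rfl h2)
        · intro h' hne
          exact @finsum_of_isEmpty _ _ _ ⟨fun h1 => hne (hrs' (h1.trans hh'.symm))⟩ _
      have e3 : s (h.restrictScalars K) = s g := by
        rw [hh, map_mul, map_mul, map_inv, mul_comm (s x)⁻¹, mul_assoc, inv_mul_cancel, mul_one]
      rw [e1, e2, e3]
    · have e1 : T x = 0 := by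
        apply finsum_eq_zero_of_forall_eq_zero
        intro h
        exact @finsum_of_isEmpty _ _ _ ⟨fun h1 => hx ⟨h, h1⟩⟩ _
      have e2 : T' (π x) = 0 := by
        apply finsum_eq_zero_of_forall_eq_zero
        intro h
        refine @finsum_of_isEmpty _ _ _ ⟨fun h1 => hx ?_⟩ _
        -- `x⁻¹ g x` fixes `F`
        have h2 : ∀ y : F, (x⁻¹ * g * x) (algebraMap F P y) = algebraMap F P y := by
          intro y
          have h3 := AlgEquiv.restrictNormal_commutes (x⁻¹ * g * x) L (algebraMap F L y)
          change algebraMap L P (π (x⁻¹ * g * x) (algebraMap F L y)) = _ at h3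
          rw [map_mul, map_mul, map_inv, ← h1] at h3
          rw [IsScalarTower.algebraMap_apply F L P, ← h3]
          congr 1
          exact h.commutes y
        exact ⟨AlgEquiv.ofRingEquiv (f := (x⁻¹ * g * x).toRingEquiv) h2, by ext y; rfl⟩
      rw [e1, e2, mul_zero]
  have hker : ∀ x : L ≃ₐ[K] L, (Finset.univ.filter fun g => π g = x).card = Nat.card π.ker := by
    intro x
    obtain ⟨y, rfl⟩ := hπ x
    rw [← Fintype.card_subtype, ← Nat.card_eq_fintype_card]
    refine Nat.card_congr
      { toFun := fun g => ⟨g.1 * y⁻¹, by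
          rw [MonoidHom.mem_ker, map_mul, map_inv, g.2, mul_inv_cancel]⟩
        invFun := fun h => ⟨h.1 * y, by
          rw [map_mul, (MonoidHom.mem_ker.mp h.2), one_mul]⟩
        left_inv := fun g => Subtype.ext (by simp)
        right_inv := fun h => Subtype.ext (by simp) }
  have hcard : Nat.card (P ≃ₐ[K] P) = Nat.card π.ker * Nat.card (L ≃ₐ[K] L) := by
    have h1 := π.ker.index_mul_card
    rw [Subgroup.index_ker, MonoidHom.range_eq_top.mpr hπ, Subgroup.card_top] at h1
    rw [← h1, mul_comm]
  have hkf : Nat.card π.ker = Module.finrank L P := by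
    rw [IsGalois.card_aut_eq_finrank, IsGalois.card_aut_eq_finrank,
      ← Module.finrank_mul_finrank K L P, mul_comm] at hcard
    exact (Nat.eq_of_mul_eq_mul_right Module.finrank_pos hcard).symm
  have hcF : Nat.card (P ≃ₐ[F] P) = Nat.card π.ker * Nat.card (L ≃ₐ[F] L) := by
    rw [hkf, IsGalois.card_aut_eq_finrank, IsGalois.card_aut_eq_finrank,
      ← Module.finrank_mul_finrank F L P, mul_comm]
  have hkc : (Nat.card π.ker : ℂ) ≠ 0 := by exact_mod_cast Nat.card_pos.ne'
  change (Nat.card (P ≃ₐ[F] P) : ℂ)⁻¹ * ∑ᶠ x, T x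
    = ((s g : ℂˣ) : ℂ) * ((Nat.card (L ≃ₐ[F] L) : ℂ)⁻¹ * ∑ᶠ y, T' y)
  rw [finsum_eq_sum_of_fintype, finsum_eq_sum_of_fintype,
    Finset.sum_congr rfl fun x _ => hTT x, ← Finset.mul_sum]
  have hsum : ∑ x, T' (π x) = (Nat.card π.ker : ℂ) * ∑ y, T' y := by
    rw [← Finset.sum_fiberwise (s := Finset.univ) (g := fun g : P ≃ₐ[K] P => π g),
      Finset.mul_sum]
    refine Finset.sum_congr rfl fun x _ => ?_
    rw [← hker x, ← nsmul_eq_mul, ← Finset.sum_const]
    refine Finset.sum_congr rfl fun g hg => ?_
    rw [(Finset.mem_filter.mp hg).2]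
  rw [hsum, hcF]
  push_cast
  field_simp

end ind

section main

variable {M : Type} [CommGroup M] (A : ArtinInvariant M)

/-- **The twisted invariant.** -/
noncomputable def tw : ArtinInvariant M where
  val K L _ _ _ _ _ _ χ := twval A K L χ
  val_add K L _ _ _ _ _ _ χ χ' h h' := by
    obtain ⟨N, i1, i2, i3, i4, i5, i6, hN⟩ := exists_ext K L {-1}
    obtain ⟨j, hj⟩ := hN (-1) (by simp)
    rw [map_neg, map_one] at hj
    rw [twval_eq A (h.add h') N hj, twval_eq A h N hj, twval_eq A h' N hj,
      ← A.val_add K N _ _ (isChar_twc hj h) (isChar_twc hj h')]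
    congr 1
    funext g
    unfold twc
    rw [Pi.add_apply, Pi.add_apply, mul_add]
  val_infl K L N _ _ _ _ _ _ _ _ _ _ _ _ χ h := by
    obtain ⟨P, i1, i2, i3, i4, i5, i6, hP⟩ := exists_ext K N {-1}
    obtain ⟨j, hj⟩ := hP (-1) (by simp)
    rw [map_neg, map_one] at hj
    let _ : Algebra L P := ((algebraMap N P).comp (algebraMap L N)).toAlgebra
    have t1 : IsScalarTower L N P := IsScalarTower.of_algebraMap_eq fun x => rfl
    have t2 : IsScalarTower K L P := IsScalarTower.of_algebraMap_eq fun x => by
      rw [IsScalarTower.algebraMap_apply K N P, IsScalarTower.algebraMap_apply L N P,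
        ← IsScalarTower.algebraMap_apply K L N]
    have hN : IsChar (fun g : N ≃ₐ[K] N => χ (AlgEquiv.restrictNormalHom L g)) :=
      Pool.Agent.K4H77.SL.IsChar.comp h (AlgEquiv.restrictNormalHom L)
    rw [twval_eq A hN P hj, twval_eq A h P hj]
    congr 1
    funext g
    change ((sJ K j hj g : ℂˣ) : ℂ)
      * χ (AlgEquiv.restrictNormalHom L (AlgEquiv.restrictNormalHom N g))
        = ((sJ K j hj g : ℂˣ) : ℂ) * χ (AlgEquiv.restrictNormalHom L g)
    rw [res_res (L := L) (N := N) g]
  val_ind K F L _ _ _ _ _ _ _ _ _ _ _ _ χ h := by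
    obtain ⟨P, i1, i2, i3, i4, i5, i6, hP⟩ := exists_ext K L {-1}
    obtain ⟨j, hj⟩ := hP (-1) (by simp)
    rw [map_neg, map_one] at hj
    let _ : Algebra F P := ((algebraMap L P).comp (algebraMap F L)).toAlgebra
    have t1 : IsScalarTower F L P := IsScalarTower.of_algebraMap_eq fun x => rfl
    have t2 : IsScalarTower K F P := IsScalarTower.of_algebraMap_eq fun x => by
      rw [IsScalarTower.algebraMap_apply K L P, IsScalarTower.algebraMap_apply F L P,
        ← IsScalarTower.algebraMap_apply K F L]
    have hFP : IsGalois F P := IsGalois.tower_top_of_isGalois K F P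
    rw [twval_eq A (isChar_indChar h) P hj, twval_eq A h P hj,
      ← A.val_ind K F P _ (isChar_twc hj h)]
    congr 1
    funext g
    exact (indChar_twist (sJ K j hj) χ g).symm

lemma tw_val {K L : Type} [Field K] [NumberField K] [Field L] [NumberField L] [Algebra K L]
    [IsGalois K L] {χ : (L ≃ₐ[K] L) → ℂ} (hχ : IsChar χ) (N : Type) [Field N] [NumberField N]
    [Algebra K N] [Algebra L N] [IsScalarTower K L N] [IsGalois K N] {j : N} (hj : j * j = -1) :
    (tw A).val K L χ = A.val K N (twc j hj χ) := twval_eq A hχ N hj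

/-- twisting twice -/
lemma tw_tw {K L : Type} [Field K] [NumberField K] [Field L] [NumberField L] [Algebra K L]
    [IsGalois K L] {χ : (L ≃ₐ[K] L) → ℂ} (hχ : IsChar χ) (N : Type) [Field N] [NumberField N]
    [Algebra K N] [Algebra L N] [IsScalarTower K L N] [IsGalois K N] {j : N} (hj : j * j = -1) :
    (tw A).val K N (twc j hj χ) = A.val K L χ := by
  rw [tw_val A (isChar_twc hj hχ) N hj, ← A.val_infl K L N χ hχ]
  congr 1
  funext g
  unfold twc
  have h1 : AlgEquiv.restrictNormalHom N g = g := by
    ext x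
    exact AlgEquiv.restrictNormal_commutes g N x
  rw [h1, ← mul_assoc, ← Units.val_mul, sJ_sq, Units.val_one, one_mul]

end main

end Pool.Agent.Run7.h375.BE
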