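import Mathlib
import Pool.Agent.Run7.h375.BE.Tw
import Pool.Agent.Run7.h508.SQ.Gen
import Pool.Agent.K4H34.ST.Main
import Pool.Agent.K4H77.SL.Lin

/-!
# Reduction theorems for both parities
-/

set_option autoImplicit false
set_option linter.unusedSectionVars false

namespace Pool.Agent.Run7.h375.BE

open NumberField NumberField.ComplexEmbedding Pool.Agent.R389 Pool.Agent.K4H74.ST
  Pool.Agent.K4H77.SL Pool.Agent.K4H34.ST Pool.Agent.K4H34.NC Pool.Agent.Run7.h508.SQ

variable {M : Type} [CommGroup M]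

/-- the invariant is trivial on the linear characters of totally real fields which have the value
`e` at all complex conjugations -/
def TrivCrit (A : ArtinInvariant M) (e : ℂˣ) : Prop :=
  ∀ (K L : Type) [Field K] [NumberField K] [Field L] [NumberField L] [Algebra K L] [IsGalois K L],
    IsTotallyReal K → ∀ ψ : (L ≃ₐ[K] L) →* ℂˣ,
      (∀ (φ : L →+* ℂ) (c : L ≃ₐ[K] L), IsConj φ c → ψ c = e) →
      A.val K L (fun g => ((ψ g : ℂˣ) : ℂ)) = 1

/-- the invariant is trivial on the faithful linear characters of the cyclic extensions of degree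
`4, 8, 16, ...` of the fields which are neither totally real nor totally complex, with value `e` at
all complex conjugations -/
def TrivMix (A : ArtinInvariant M) (e : ℂˣ) : Prop :=
  ∀ (K L : Type) [Field K] [NumberField K] [Field L] [NumberField L] [Algebra K L] [IsGalois K L],
    ¬ IsTotallyReal K → ¬ IsTotallyComplex K →
      (∃ l : ℕ, Nat.card (L ≃ₐ[K] L) = 2 ^ (l + 2)) →
      ∀ ψ : (L ≃ₐ[K] L) →* ℂˣ, Function.Injective ψ →
      (∀ (φ : L →+* ℂ) (c : L ≃ₐ[K] L), IsConj φ c → ψ c = e) →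
      A.val K L (lc ψ) = 1

variable {A : ArtinInvariant M}

section transfer

lemma twc_lc {K L N : Type} [Field K] [NumberField K] [Field L] [NumberField L] [Field N]
    [NumberField N] [Algebra K L] [Algebra L N] [Algebra K N] [IsScalarTower K L N] [IsGalois K L]
    [IsGalois K N] {j : N} (hj : j * j = -1) (ψ : (L ≃ₐ[K] L) →* ℂˣ) :
    twc j hj (lc ψ) = lc (ψ.comp (AlgEquiv.restrictNormalHom L) * sJ K j hj) := by
  funext g
  unfold twc lc
  rw [MonoidHom.mul_apply, Units.val_mul, mul_comm]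
  rfl

lemma tw_one (hR : TrivOne A) : TrivOne (tw A) := by
  intro K _ _
  obtain ⟨N, i1, i2, i3, i4, i5, i6, hN⟩ := exists_ext K K {-1}
  obtain ⟨j, hj⟩ := hN (-1) (by simp)
  rw [map_neg, map_one] at hj
  have h34 : i3 = i4 := by
    apply Algebra.algebra_ext
    intro r
    exact @IsScalarTower.algebraMap_apply K K N _ _ _ _ i4 i3 i5 r
  subst h34
  have h1 : (fun _ : K ≃ₐ[K] K => (1 : ℂ)) = lc 1 := by
    funext g
    simp [lc]
  rw [h1, tw_val A (IsChar.lc 1) N hj, twc_lc]
  have h2 : (1 : (K ≃ₐ[K] K) →* ℂˣ).comp (AlgEquiv.restrictNormalHom K) * sJ K j hj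
      = sJ K j hj := by
    ext g
    simp
  rw [h2]
  exact val_sign hR (sJ_sg hj)

lemma tw_odd (hC : TrivCrit A 1) : TrivOdd (tw A) := by
  intro K L _ _ _ _ _ _ hK ψ hψ
  obtain ⟨N, i1, i2, i3, i4, i5, i6, hN⟩ := exists_ext K L {-1}
  obtain ⟨j, hj⟩ := hN (-1) (by simp)
  rw [map_neg, map_one] at hj
  change (tw A).val K L (lc ψ) = 1
  rw [tw_val A (IsChar.lc ψ) N hj, twc_lc]
  refine hC K N hK _ fun φ c hc => ?_
  rw [MonoidHom.mul_apply, sJ_cc hj ⟨φ, hc⟩]
  have h1 : IsConj (φ.comp (algebraMap L N)) (AlgEquiv.restrictNormalHom L c) := by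
    ext x
    have h2 := AlgEquiv.restrictNormal_commutes c L x
    change algebraMap L N (AlgEquiv.restrictNormalHom L c x) = _ at h2
    change star (φ (algebraMap L N x)) = φ (algebraMap L N (AlgEquiv.restrictNormalHom L c x))
    rw [h2]
    exact RingHom.congr_fun hc (algebraMap L N x)
  rw [MonoidHom.comp_apply, hψ _ _ h1, neg_mul_neg, one_mul]

/-- ramification of a character over a larger field -/
lemma LRam.base {K L N F E : Type} [Field K] [NumberField K] [Field L] [NumberField L] [Field N]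
    [NumberField N] [Field F] [NumberField F] [Field E] [NumberField E] [Algebra K L] [Algebra L N]
    [Algebra K N] [IsScalarTower K L N] [IsGalois K L] [IsGalois K N] [Algebra K F] [Algebra F N]
    [IsScalarTower K F N] [Algebra F E] [Algebra E N] [IsScalarTower F E N] [IsGalois F N]
    [IsGalois F E] {l j m : ℕ} (hr : LRam l j m K L) (ψ : (L ≃ₐ[K] L) →* ℂˣ)
    (θ : (E ≃ₐ[F] E) →* ℂˣ) (hθ : Function.Injective θ)
    (h : ∀ g : N ≃ₐ[F] N, θ (AlgEquiv.restrictNormalHom E g)
      = ψ (AlgEquiv.restrictNormalHom L (g.restrictScalars K))) : LRam l j m F E := by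
  have hEN : IsGalois E N := IsGalois.tower_top_of_isGalois F E N
  have hact : ∀ (g : N ≃ₐ[F] N) (x : 𝓞 L),
      algebraMap (𝓞 L) (𝓞 N) (gi (AlgEquiv.restrictNormalHom L (g.restrictScalars K)) x)
        = gi g (algebraMap (𝓞 L) (𝓞 N) x) := by
    intro g x
    apply RingOfIntegers.ext
    exact AlgEquiv.restrictNormal_commutes (g.restrictScalars K) L (x : L)
  have hmax : ∀ Q : Ideal (𝓞 N), Q.IsMaximal → (Q.comap (algebraMap (𝓞 L) (𝓞 N))).IsMaximal :=
    fun Q hQ => Ideal.isMaximal_comap_of_isIntegral_of_isMaximal Q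
  have hLJ : ∀ g : N ≃ₐ[F] N, LJ l j (AlgEquiv.restrictNormalHom L (g.restrictScalars K)) →
      LJ l j (AlgEquiv.restrictNormalHom E g) := by
    intro g hg
    apply LJ.of_inj θ hθ
    rw [h]
    exact hg.map ψ
  intro P hP
  refine ⟨fun g hg => ?_, fun hm g hg => ?_⟩
  · obtain ⟨h0, Q, rfl, hQ, hQP, hhQ⟩ := lift_inertia (L := N) hP hg
    apply hLJ
    refine (hr _ (hmax Q hQ)).1 _ fun x => ?_
    rw [Ideal.mem_comap, map_sub, hact]
    exact hhQ _
  · obtain ⟨h0, Q, rfl, hQ, hQP, hhQ⟩ := lift_decomp (N := N) hP hg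
    apply hLJ
    refine (hr _ (hmax Q hQ)).2 ?_ _ fun x => ?_
    · rw [Ideal.mem_comap, map_natCast]
      have h2 : algebraMap (𝓞 E) (𝓞 N) (m : 𝓞 E) ∈ Q := by
        rw [← Ideal.mem_comap, hQP]
        exact hm
      rwa [map_natCast] at h2
    · rw [Ideal.mem_comap, Ideal.mem_comap, hact]
      exact hhQ _

lemma tw_ell {m l j : ℕ} (hA : TrivEll A m l j 0) : TrivEll (tw A) m l j 0 := by
  intro K L _ _ _ _ _ _ hK hr ψ hψ _
  obtain ⟨N, i1, i2, i3, i4, i5, i6, hN⟩ := exists_ext K L {-1}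
  obtain ⟨i, hi⟩ := hN (-1) (by simp)
  rw [map_neg, map_one] at hi
  have hfin : FiniteDimensional K N := Module.Finite.of_restrictScalars_finite ℚ K N
  rw [tw_val A (IsChar.lc ψ) N hi, twc_lc]
  let s := sJ K i hi
  have hs : Sg s := sJ_sg hi
  let ψN : (N ≃ₐ[K] N) →* ℂˣ := ψ.comp (AlgEquiv.restrictNormalHom L)
  have h0 : A.val K N (lc ψN) = 1 := by
    rw [val_lin_res ψ]
    exact hA K L hK hr ψ hψ (pow_zero ψ)
  by_cases ht : ∃ t, s t = -1
  · obtain ⟨t, ht⟩ := ht
    have h1 := ind_two' hs ht ψN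
    obtain ⟨F, hF⟩ : ∃ F : IntermediateField K N, F = IntermediateField.fixedField s.ker := ⟨_, rfl⟩
    let e := IntermediateField.subgroupEquivAlgEquiv s.ker
    let ψF : (N ≃ₐ[IntermediateField.fixedField s.ker] N) →* ℂˣ :=
      (ψN.comp s.ker.subtype).comp e.symm.toMonoidHom
    have h2 : ind s.ker (fun h => lc ψN h)
        = indChar K (IntermediateField.fixedField s.ker) N (lc ψF) := ind_fixed s.ker _
    obtain ⟨E, j1, j2, j3, j4, j5, j6, θ, hθ, hψθ⟩ :=
      lin_red (IntermediateField.fixedField s.ker) N ψF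
    have h3 : ψF = θ.comp (AlgEquiv.restrictNormalHom E) := by
      ext g
      rw [← hψθ]
      rfl
    have hFc : IsTotallyComplex (IntermediateField.fixedField s.ker) :=
      isTotallyComplex_of_algebra K _
    have he : ∀ g : N ≃ₐ[IntermediateField.fixedField s.ker] N,
        ((e.symm g : s.ker) : N ≃ₐ[K] N) = g.restrictScalars K := by
      intro g
      obtain ⟨u, rfl⟩ := e.surjective g
      rw [MulEquiv.symm_apply_apply]
      ext x
      rfl
    have hrE : LRam l j m (IntermediateField.fixedField s.ker) E := by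
      refine LRam.base (K := K) (L := L) (N := N) hr ψ θ hθ fun g => ?_
      rw [hψθ]
      change ψN ((e.symm g : s.ker) : N ≃ₐ[K] N) = _
      rw [he]
      rfl
    have h4 : A.val (IntermediateField.fixedField s.ker) N (lc ψF) = 1 := by
      rw [h3, val_lin_res]
      exact hA _ E hFc hrE θ hθ (pow_zero θ)
    rw [h2] at h1
    have h5 := congrArg (A.val K N) h1
    rw [A.val_ind K (IntermediateField.fixedField s.ker) N (lc ψF) (IsChar.lc ψF), h4,
      A.val_add K N _ _ (IsChar.lc _) (IsChar.lc _), h0, one_mul] at h5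
    exact h5.symm
  · push Not at ht
    have h1 : s = 1 := by
      ext g
      rw [(hs g).resolve_right (ht g)]
      rfl
    change A.val K N (lc (ψN * s)) = 1
    have h2 : ψN * s = ψN := by
      ext g
      rw [h1]
      simp
    rw [h2]
    exact h0

lemma card_of_inj {G : Type} [Group G] [Finite G] {n : ℕ} (hn : n ≠ 0) (θ : G →* ℂˣ)
    (hθ : Function.Injective θ) (h1 : ∀ g, θ g ^ n = 1) {g : G} (hg : orderOf (θ g) = n) :
    Nat.card G = n := by
  have : NeZero n := ⟨hn⟩
  have h2 : Nat.card G ≤ n := by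
    let f : G → rootsOfUnity n ℂ := fun g => ⟨θ g, by rw [mem_rootsOfUnity]; exact h1 g⟩
    have hf : Function.Injective f := fun a b h => hθ (congrArg Subtype.val h)
    have h3 := Nat.card_le_card_of_injective f hf
    rwa [Complex.card_rootsOfUnity] at h3
  have h4 : n ∣ Nat.card G := by
    rw [orderOf_injective θ hθ] at hg
    rw [← hg]
    exact orderOf_dvd_natCard g
  exact le_antisymm h2 (Nat.le_of_dvd Nat.card_pos h4)

lemma order_neg {l : ℕ} {z w : ℂˣ} (hz : orderOf z = 2 ^ (l + 2)) (hw : w = z ∨ w = -z) :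
    orderOf w = 2 ^ (l + 2) := by
  rcases hw with rfl | rfl
  · exact hz
  · have hd : orderOf (-z) ∣ 2 ^ (l + 2) := by
      apply orderOf_dvd_of_pow_eq_one
      rw [neg_pow, ← hz, pow_orderOf_eq_one, mul_one, hz]
      rw [pow_succ, pow_mul]
      rw [← pow_mul, mul_comm, pow_mul]
      simp
    obtain ⟨k, hk, he⟩ := (Nat.dvd_prime_pow Nat.prime_two).mp hd
    rw [he]
    congr 1
    by_contra hne
    have hk' : k ≤ l + 1 := by omega
    have h1 : (-z) ^ (2 ^ (l + 1)) = 1 := by
      rw [← orderOf_dvd_iff_pow_eq_one, he]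
      exact pow_dvd_pow 2 hk'
    have h2 : z ^ (2 ^ (l + 1)) = 1 := by
      have h3 : (-z) ^ (2 ^ (l + 1)) = z ^ (2 ^ (l + 1)) := by
        rw [pow_succ 2 l, mul_comm, pow_mul, pow_mul, neg_sq]
      rw [← h3, h1]
    have h4 := orderOf_dvd_of_pow_eq_one h2
    rw [hz] at h4
    have h5 := (Nat.pow_dvd_pow_iff_le_right (by norm_num : 1 < 2)).mp h4
    omega

lemma tw_mix (hA : TrivMix A (-1)) : TrivMixedE (tw A) 0 := by
  intro K L _ _ _ _ _ _ hK hK' ⟨l, hl⟩ hcc ψ hψ _
  obtain ⟨N, i1, i2, i3, i4, i5, i6, hN⟩ := exists_ext K L {-1}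
  obtain ⟨i, hi⟩ := hN (-1) (by simp)
  rw [map_neg, map_one] at hi
  have hfin : FiniteDimensional K N := Module.Finite.of_restrictScalars_finite ℚ K N
  have hfinL : FiniteDimensional K L := Module.Finite.of_restrictScalars_finite ℚ K L
  rw [tw_val A (IsChar.lc ψ) N hi, twc_lc]
  obtain ⟨E, j1, j2, j3, j4, j5, j6, θ, hθ, hψθ⟩ :=
    lin_red K N (ψ.comp (AlgEquiv.restrictNormalHom L) * sJ K i hi)
  have hfinE : FiniteDimensional K E := Module.Finite.of_restrictScalars_finite ℚ K E
  have h3 : ψ.comp (AlgEquiv.restrictNormalHom L) * sJ K i hi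
      = θ.comp (AlgEquiv.restrictNormalHom E) := by
    ext g
    rw [← hψθ]
    rfl
  rw [h3, val_lin_res]
  have hpm : ∀ g : N ≃ₐ[K] N, θ (AlgEquiv.restrictNormalHom E g)
      = ψ (AlgEquiv.restrictNormalHom L g) ∨ θ (AlgEquiv.restrictNormalHom E g)
      = - ψ (AlgEquiv.restrictNormalHom L g) := by
    intro g
    rw [hψθ, MonoidHom.mul_apply, MonoidHom.comp_apply]
    rcases sJ_sg hi g with h | h
    · left; rw [h, mul_one]
    · right; rw [h, mul_neg, mul_one]
  have hcyc : IsCyclic (L ≃ₐ[K] L) := isCyclic_of_injective_ringHom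
    ((Units.coeHom ℂ).comp ψ) (fun a b h => hψ (Units.ext h))
  refine hA K E hK hK' ⟨l, ?_⟩ θ hθ ?_
  · obtain ⟨g, hg⟩ := hcyc.exists_generator
    have hog : orderOf g = 2 ^ (l + 2) := by
      rw [← hl]
      exact orderOf_eq_card_of_forall_mem_zpowers hg
    obtain ⟨g', rfl⟩ := AlgEquiv.restrictNormalHom_surjective (F := K) (K₁ := L) N g
    refine card_of_inj (by positivity) θ hθ ?_ (g := AlgEquiv.restrictNormalHom E g')
      (order_neg (by rw [orderOf_injective ψ hψ]; exact hog) (hpm g'))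
    intro h
    obtain ⟨h', rfl⟩ := AlgEquiv.restrictNormalHom_surjective (F := K) (K₁ := E) N h
    have h5 : ψ (AlgEquiv.restrictNormalHom L h') ^ (2 ^ (l + 2)) = 1 := by
      rw [← map_pow, ← hl, pow_card_eq_one', map_one]
    rcases hpm h' with h6 | h6
    · rw [h6, h5]
    · rw [h6, neg_pow, h5, mul_one, pow_succ 2 (l + 1), mul_comm, pow_mul]
      simp
  · intro φ c hc
    have hreal : IsReal (φ.comp (algebraMap K E)) := by
      ext x
      change star (φ (algebraMap K E x)) = φ (algebraMap K E x)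
      have h5 := RingHom.congr_fun hc (algebraMap K E x)
      change star (φ (algebraMap K E x)) = φ (c (algebraMap K E x)) at h5
      rw [h5, c.commutes]
    let φ' : N →+* ℂ := ComplexEmbedding.lift N φ
    have hφ' : φ'.comp (algebraMap E N) = φ := ComplexEmbedding.lift_comp_algebraMap N φ
    have hreal' : IsReal (φ'.comp (algebraMap K N)) := by
      have h6 : φ'.comp (algebraMap K N) = φ.comp (algebraMap K E) := by
        rw [← hφ', RingHom.comp_assoc, ← IsScalarTower.algebraMap_eq K E N]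
      rw [h6]
      exact hreal
    obtain ⟨c', hc'⟩ := exists_conj (K := K) hreal'
    have h7 : AlgEquiv.restrictNormalHom E c' = c := by
      ext x
      apply φ.injective
      have h8 := RingHom.congr_fun hc x
      change star (φ x) = φ (c x) at h8
      have h9 := RingHom.congr_fun hc' (algebraMap E N x)
      change star (φ' (algebraMap E N x)) = φ' (c' (algebraMap E N x)) at h9
      have h10 := AlgEquiv.restrictNormal_commutes c' E x
      change algebraMap E N (AlgEquiv.restrictNormalHom E c' x) = _ at h10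
      rw [← h10] at h9
      have h11 : ∀ y, φ' (algebraMap E N y) = φ y := fun y => RingHom.congr_fun hφ' y
      rw [h11, h11] at h9
      rw [← h9, h8]
    have h8 : AlgEquiv.restrictNormalHom L c' = 1 := by
      refine hcc (φ'.comp (algebraMap L N)) _ ?_
      ext x
      have h2 := AlgEquiv.restrictNormal_commutes c' L x
      change algebraMap L N (AlgEquiv.restrictNormalHom L c' x) = _ at h2
      change star (φ' (algebraMap L N x)) = φ' (algebraMap L N (AlgEquiv.restrictNormalHom L c' x))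
      rw [h2]
      exact RingHom.congr_fun hc' (algebraMap L N x)
    rw [← h7, hψθ, MonoidHom.mul_apply, MonoidHom.comp_apply, h8, map_one, one_mul,
      sJ_cc hi ⟨φ', hc'⟩]

end transfer

section main

variable {e : ℂˣ}

lemma ell_of_split {m : ℕ} (h : TrivSplitLin A m) : TrivEll A m 2 1 0 := by
  intro K L _ _ _ _ _ _ hK hr ψ hψ _
  refine h K L hK (fun P hP g hg => ?_) (fun P hP hm g hg => ?_) ψ hψ
  · rw [← pow_one g]
    exact ((hr P hP).1 g hg).2
  · rw [← pow_one g]
    exact ((hr P hP).2 hm g hg).2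

lemma split_of_ell {m : ℕ} (h : TrivEll A m 2 1 0) : TrivSplitLin A m := by
  intro K L _ _ _ _ _ _ hK h1 h2 ψ hψ
  exact h K L hK (fun P hP => ⟨fun g hg => LJ.of_eq_one (h1 P hP g hg),
    fun hm g hg => LJ.of_eq_one (h2 P hP hm g hg)⟩) ψ hψ (pow_zero ψ)

/-- transfer of results from the twisted invariant -/
lemma of_tw {P : M → Prop} (K L : Type) [Field K] [NumberField K] [Field L] [NumberField L]
    [Algebra K L] [IsGalois K L] {χ : (L ≃ₐ[K] L) → ℂ} (hχ : IsChar χ)
    (h : ∀ (N : Type) [Field N] [NumberField N] [Algebra K N] [IsGalois K N]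
      (χ' : (N ≃ₐ[K] N) → ℂ), IsChar χ' → P ((tw A).val K N χ')) : P (A.val K L χ) := by
  obtain ⟨N, i1, i2, i3, i4, i5, i6, hN⟩ := exists_ext K L {-1}
  obtain ⟨j, hj⟩ := hN (-1) (by simp)
  rw [map_neg, map_one] at hj
  rw [← tw_tw A hχ N hj]
  exact h N _ (isChar_twc hj hχ)

/-- **Up to torsion.** -/
theorem all_tors (he : e = 1 ∨ e = -1) {m : ℕ} (hm : m ≠ 0) (hR : TrivOne A)
    (hC : TrivCrit A e) (hT : TrivSplitLin A m) (K L : Type) [Field K] [NumberField K] [Field L]
    [NumberField L] [Algebra K L] [IsGalois K L] {χ : (L ≃ₐ[K] L) → ℂ} (hχ : IsChar χ) :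
    IsOfFinOrder (A.val K L χ) := by
  rcases he with rfl | rfl
  · refine of_tw (P := IsOfFinOrder) K L hχ ?_
    intro N _ _ _ _ χ' hχ'
    exact Pool.Agent.K4H34.ST.main hm (tw_one hR) (tw_odd hC)
      (trivSplit_of_lin (split_of_ell (tw_ell (ell_of_split hT)))) K N hχ'
  · exact Pool.Agent.K4H34.ST.main hm hR hC (trivSplit_of_lin hT) K L hχ

variable {m : ℕ} (he : e = 1 ∨ e = -1) (hm : m ≠ 0) (hR : TrivOne A) (hC : TrivCrit A e)
  (hTE : ∀ l : ℕ, l.Prime → TrivEll A m l 0 0)

include he hm hR hC hTE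

/-- **Up to sign.** -/
theorem all_sq (K L : Type) [Field K] [NumberField K] [Field L]
    [NumberField L] [Algebra K L] [IsGalois K L] {χ : (L ≃ₐ[K] L) → ℂ} (hχ : IsChar χ) :
    A.val K L χ ^ 2 = 1 := by
  rcases he with rfl | rfl
  · refine of_tw (P := fun x => x ^ 2 = 1) K L hχ ?_
    intro N _ _ _ _ χ' hχ'
    obtain ⟨N', j1, j2, j3, j4⟩ := exists_gal N
    exact gen_sq hm (tw_one hR) (tw_odd hC) (Set.mem_univ 2)
      (fun l _ hl => tw_ell (hTE l hl)) K N N' (fun l _ h => absurd (Set.mem_univ l) h) hχ'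
  · obtain ⟨N', j1, j2, j3, j4⟩ := exists_gal L
    exact gen_sq hm hR hC (Set.mem_univ 2) (fun l _ hl => hTE l hl) K L N'
      (fun l _ h => absurd (Set.mem_univ l) h) hχ

/-- **Totally complex fields.** -/
theorem all_cx (K L : Type) [Field K] [NumberField K] [Field L]
    [NumberField L] [Algebra K L] [IsGalois K L] (hK : IsTotallyComplex K)
    {χ : (L ≃ₐ[K] L) → ℂ} (hχ : IsChar χ) : A.val K L χ = 1 := by
  rcases he with rfl | rfl
  · refine of_tw (P := fun x => x = 1) K L hχ ?_
    intro N _ _ _ _ χ' hχ'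
    obtain ⟨N', j1, j2, j3, j4⟩ := exists_gal N
    exact gen_cx hm (tw_one hR) (tw_odd hC) (Set.mem_univ 2)
      (fun l _ hl => tw_ell (hTE l hl)) K N N' (fun l _ h => absurd (Set.mem_univ l) h) hχ' hK
  · obtain ⟨N', j1, j2, j3, j4⟩ := exists_gal L
    exact gen_cx hm hR hC (Set.mem_univ 2) (fun l _ hl => hTE l hl) K L N'
      (fun l _ h => absurd (Set.mem_univ l) h) hχ hK

/-- **All fields.** -/
theorem all_mix (hM : TrivMix A (-e)) (K L : Type) [Field K] [NumberField K] [Field L]
    [NumberField L] [Algebra K L] [IsGalois K L] {χ : (L ≃ₐ[K] L) → ℂ} (hχ : IsChar χ) :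
    A.val K L χ = 1 := by
  rcases he with rfl | rfl
  · refine of_tw (P := fun x => x = 1) K L hχ ?_
    intro N _ _ _ _ χ' hχ'
    obtain ⟨N', j1, j2, j3, j4⟩ := exists_gal N
    exact gen_mixed hm (tw_one hR) (tw_odd hC) (Set.mem_univ 2)
      (fun l _ hl => tw_ell (hTE l hl)) K N N' (fun l _ h => absurd (Set.mem_univ l) h) hχ'
      (fun y => pow_zero y) (tw_mix hM)
  · obtain ⟨N', j1, j2, j3, j4⟩ := exists_gal L
    refine gen_mixed hm hR hC (Set.mem_univ 2) (fun l _ hl => hTE l hl) K L N'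
      (fun l _ h => absurd (Set.mem_univ l) h) hχ (fun y => pow_zero y) ?_
    intro K L _ _ _ _ _ _ hK hK' hl hcc ψ hψ _
    refine hM K L hK hK' hl ψ hψ fun φ c hc => ?_
    rw [hcc φ c hc, map_one, neg_neg]

end main

end Pool.Agent.Run7.h375.BE
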