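import Mathlib
import Pool.Agent.Run7.h375.BE.Inv
import Pool.Agent.Run7.h375.BE.Lead
import Pool.Agent.Run7.h375.BE.TwT
import Pool.Agent.Run7.h375.BE.Rat
import Pool.Agent.K4H74.SC.Wrap

/-!
# The equality in terms of the inductive invariants
-/

set_option autoImplicit false
set_option linter.unusedSectionVars false

namespace Pool.Agent.Run7.h375.BE

open NumberField NumberField.ComplexEmbedding Pool.Agent.K4H74.SK Pool.Agent.K4H74.SC
open Pool.Agent.K4H74.ST (ArtinInvariant IsChar TrivOne lc)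
open Pool.Agent.K4H74.SK (IsDetOn lin)

variable {k : ℕ}

/-- the pair of the rational structures -/
noncomputable def RegSystem.sys (S : RegSystem k) : Sys where
  W L _ _ := VPlus k L
  P L _ _ := BPlus k L
  Q L _ _ := S.H L
  formP L _ _ := form_B k L
  formQ L _ _ := S.form L
  mapP _ _ _ _ _ _ f _ ha := pull_B f ha
  mapQ F L _ _ _ _ f a ha := S.map F L f a ha
  trP _ _ _ _ _ _ f _ hb := push_B f hb
  trQ F L _ _ _ _ f b hb := S.tr F L f b hb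

variable (S : RegSystem k) {E : Ext}

/-- from the invariant version to the concrete version -/
lemma exists_regMap (E : Ext) : ∃ Φ : V E.L →ₗ[ℂ] V E.L, IsRegMap S Φ := by
  obtain ⟨Λ, hΛ⟩ := S.sys.exists_iso E.K E.L
  obtain ⟨Φ, hΦ⟩ := LinearMap.exists_extend ((VPlus k E.L).subtype ∘ₗ (Λ : VPlus k E.L →ₗ[ℂ] VPlus k E.L))
  have h0 : ∀ a : VPlus k E.L, Φ a.1 = (Λ a).1 := fun a => LinearMap.congr_fun hΦ a
  refine ⟨Φ, ⟨fun g a ha => ?_, fun a ha => ?_, fun h hh => ?_⟩⟩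
  · have h1 := congrArg Subtype.val (hΛ.1 g ⟨a, ha⟩)
    have h2 := h0 ⟨a, ha⟩
    have h3 := h0 (S.sys.rep E.K E.L g ⟨a, ha⟩)
    change Φ a = _ at h2
    change Φ (pull (emb g) a) = _ at h3
    rw [h3, h2]
    exact h1
  · have h2 := h0 ⟨a, ha.1⟩
    change Φ a = _ at h2
    rw [h2]
    exact hΛ.2.1 ⟨a, ha.1⟩ ha
  · obtain ⟨a, ha, h1⟩ := hΛ.2.2 ⟨h, S.sys.Q_le E.L hh⟩ hh
    refine ⟨a.1, ha, ?_⟩
    rw [h0, h1]

variable {S}

/-- from the concrete version to the invariant version -/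
lemma IsRegMap.iso {Φ : V E.L →ₗ[ℂ] V E.L} (hΦ : IsRegMap S Φ) :
    ∃ Λ : VPlus k E.L →ₗ[ℂ] VPlus k E.L, S.sys.IsIso E.K E.L Λ ∧
      ∀ a : VPlus k E.L, Φ a.1 = (Λ a).1 := by
  have hmem : ∀ a ∈ VPlus k E.L, Φ a ∈ VPlus k E.L := by
    intro a ha
    obtain ⟨n, b, -, h1, h2⟩ := form_B k E.L
    have h3 : Submodule.span ℂ (Set.range b) ≤ (VPlus k E.L).comap Φ := by
      rw [Submodule.span_le]
      rintro x ⟨i, rfl⟩
      refine S.sys.Q_le E.L (hΦ.2.1 _ ?_)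
      rw [← h2]
      exact Submodule.subset_span ⟨i, rfl⟩
    rw [← h1] at ha
    exact h3 ha
  refine ⟨Φ.restrict hmem, ⟨fun g w => ?_, fun a ha => ?_, fun h hh => ?_⟩, fun a => rfl⟩
  · apply Subtype.ext
    exact hΦ.1 g w.1 w.2
  · exact hΦ.2.1 a.1 ha
  · obtain ⟨a, ha, h1⟩ := hΦ.2.2 h.1 hh
    exact ⟨⟨a, ha.1⟩, ha, Subtype.ext h1⟩

section eig

variable {Φ : V E.L →ₗ[ℂ] V E.L} {Λ : VPlus k E.L →ₗ[ℂ] VPlus k E.L}

lemma det_exists (hΛ : S.sys.IsIso E.K E.L Λ) (h0 : ∀ a : VPlus k E.L, Φ a.1 = (Λ a).1)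
    (χ : G E →* ℂˣ) : ∃ r, IsDetOn (Eig k χ) Φ r := by
  have h1 : ∀ a ∈ Eig k χ, Φ a ∈ Eig k χ := by
    rintro a ⟨ha, h2⟩
    have h3 := h0 ⟨a, ha⟩
    change Φ a = _ at h3
    refine ⟨by rw [h3]; exact (Λ ⟨a, ha⟩).2, fun g => ?_⟩
    have h4 := congrArg Subtype.val (hΛ.1 g ⟨a, ha⟩)
    have h5 := h0 (S.sys.rep E.K E.L g ⟨a, ha⟩)
    change Φ (pull (emb g) a) = _ at h5
    rw [h2 g, map_smul] at h5
    rw [h5, h3]
    exact h4.symm
  exact ⟨_, Φ.restrict h1, fun _ => rfl, rfl⟩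

lemma det_unique {W : Submodule ℂ (V E.L)} {f : V E.L → V E.L} {r r' : ℂ}
    (h : IsDetOn W f r) (h' : IsDetOn W f r') : r = r' := by
  obtain ⟨T, hT, rfl⟩ := h
  obtain ⟨T', hT', rfl⟩ := h'
  have h1 : T = T' := by
    apply LinearMap.ext
    intro x
    apply Subtype.ext
    rw [hT, hT']
  rw [h1]

/-- the determinant on the component is a regulator -/
lemma det_reg (hΛ : S.sys.IsIso E.K E.L Λ) (h0 : ∀ a : VPlus k E.L, Φ a.1 = (Λ a).1)
    {χ : G E →* ℂˣ} {r : ℂ} (h : IsDetOn (Eig k χ) Φ r) :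
    IsRg (S.sys.rep E.K E.L) Λ (lin χ⁻¹) r := by
  have hfin : Finite (G E) := inferInstanceAs (Finite (E.L ≃ₐ[E.K] E.L))
  obtain ⟨T, hT, rfl⟩ := h
  let τ : Representation ℂ (E.L ≃ₐ[E.K] E.L) (VPlus k E.L) := S.sys.rep E.K E.L
  have hτ : ∀ (g : E.L ≃ₐ[E.K] E.L) (a : VPlus k E.L),
      (τ g a : V E.L) = pull (emb (E := E) g) a.1 := fun g a => rfl
  let ρ : Representation ℂ (E.L ≃ₐ[E.K] E.L) ℂ :=
    Pool.Agent.H541R3.ART.linRep (show (E.L ≃ₐ[E.K] E.L) →* ℂˣ from χ)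
  have hρ : ∀ (g : E.L ≃ₐ[E.K] E.L) (v : ℂ), ρ g v = ((χ g : ℂˣ) : ℂ) * v := fun g v => rfl
  refine ⟨ℂ, inferInstance, inferInstance, inferInstance, ρ, fun g => ?_, hΛ.1, ?_⟩
  · have h1 := Pool.Agent.H541R3.ART.linRep_char (show (E.L ≃ₐ[E.K] E.L) →* ℂˣ from χ) g
    change _ = (((χ⁻¹ : G E →* ℂˣ) (show G E from g⁻¹) : ℂˣ) : ℂ)
    have h2 : (χ⁻¹ : G E →* ℂˣ) (show G E from g⁻¹) = χ g := by
      rw [MonoidHom.inv_apply]
      have h3 : χ (show G E from g⁻¹) = (χ g)⁻¹ := map_inv χ (show G E from g)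
      rw [h3, inv_inv]
    rw [h2]
    exact h1
  · let F : Eig k χ →ₗ[ℂ] (ℂ →ₗ[ℂ] VPlus k E.L) :=
      { toFun := fun x => LinearMap.toSpanSingleton ℂ (VPlus k E.L) ⟨x.1, x.2.1⟩
        map_add' := by
          intro x y
          apply LinearMap.ext_ring
          apply Subtype.ext
          simp only [LinearMap.add_apply, LinearMap.toSpanSingleton_apply, one_smul]
          rfl
        map_smul' := by
          intro c x
          apply LinearMap.ext_ring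
          apply Subtype.ext
          simp only [LinearMap.smul_apply, LinearMap.toSpanSingleton_apply, one_smul,
            RingHom.id_apply]
          rfl }
    have hF : ∀ (x : Eig k χ) (v : ℂ), F x v = v • (⟨x.1, x.2.1⟩ : VPlus k E.L) := fun x v => rfl
    refine (homDet_eq ρ τ Λ hΛ.1 F ?_ ?_ ?_ T ?_).symm
    · intro x y h
      apply Subtype.ext
      have h1 := LinearMap.congr_fun h 1
      rw [hF, hF, one_smul, one_smul] at h1
      have h2 := congrArg Subtype.val h1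
      exact h2
    · intro x g v
      rw [hF, hF, hρ, map_smul]
      apply Subtype.ext
      change (((χ g : ℂˣ) : ℂ) * v) • x.1 = v • pull (emb (E := E) g) x.1
      rw [x.2.2 g, smul_smul, mul_comm]
    · intro f hf
      refine ⟨⟨(f 1).1, (f 1).2, fun g => ?_⟩, ?_⟩
      · have h1 := congrArg Subtype.val (hf g 1)
        rw [hρ, mul_one] at h1
        have h2 : f ((χ g : ℂˣ) : ℂ) = ((χ g : ℂˣ) : ℂ) • f 1 := by
          rw [← map_smul, smul_eq_mul, mul_one]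
        rw [h2] at h1
        exact h1.symm
      · apply LinearMap.ext_ring
        rw [hF, one_smul]
    · intro x
      apply LinearMap.ext_ring
      rw [LinearMap.comp_apply, hF, hF, one_smul, one_smul]
      apply Subtype.ext
      have h1 := h0 ⟨x.1, x.2.1⟩
      change (T x).1 = _
      rw [hT]
      exact h1

end eig

section equality

variable {c : Pair → ℂ} (hc : IsLeadingAt (1 - (k : ℂ)) c)

/-- the defects for all automorphisms at once -/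
noncomputable def allInv (S : RegSystem k) (hc : IsLeadingAt (1 - (k : ℂ)) c) :
    ArtinInvariant ((ℂ ≃+* ℂ) → ℂˣ) where
  val K L _ _ _ _ _ _ χ := fun σ => (S.sys.inv (leadInvAt hc) σ).val K L χ
  val_add K L _ _ _ _ _ _ χ χ' h h' := funext fun σ => (S.sys.inv (leadInvAt hc) σ).val_add K L χ χ' h h'
  val_infl K L N _ _ _ _ _ _ _ _ _ _ _ _ χ h :=
    funext fun σ => (S.sys.inv (leadInvAt hc) σ).val_infl K L N χ h
  val_ind K F L _ _ _ _ _ _ _ _ _ _ _ _ χ h :=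
    funext fun σ => (S.sys.inv (leadInvAt hc) σ).val_ind K F L χ h

/-- the conjugate of a character -/
def conj {G : Type} [Group G] (σ : ℂ ≃+* ℂ) (χ : G →* ℂˣ) : G →* ℂˣ :=
  (Units.map (σ : ℂ →* ℂ)).comp χ

lemma conj_apply {G : Type} [Group G] (σ : ℂ ≃+* ℂ) (χ : G →* ℂˣ) (g : G) :
    ((conj σ χ g : ℂˣ) : ℂ) = σ ((χ g : ℂˣ) : ℂ) := rfl

lemma conj_inv {G : Type} [Group G] (σ : ℂ ≃+* ℂ) (χ : G →* ℂˣ) :
    (conj σ χ)⁻¹ = conj σ χ⁻¹ := by
  ext g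
  rw [MonoidHom.inv_apply, conj_apply, MonoidHom.inv_apply, Units.val_inv_eq_inv_val, conj_apply,
    Units.val_inv_eq_inv_val, map_inv₀]

/-- the relation of the values -/
lemma key_rel {Φ : V E.L →ₗ[ℂ] V E.L} (hΦ : IsRegMap S Φ) (σ : ℂ ≃+* ℂ) (χ : G E →* ℂˣ) {r r' : ℂ}
    (hr : IsDetOn (Eig k χ) Φ r) (hr' : IsDetOn (Eig k (conj σ χ)) Φ r') :
    r ≠ 0 ∧ r' ≠ 0 ∧ σ (r / c ⟨E, lin χ⁻¹⟩)
      = (((allInv S hc).val E.K E.L (lin χ⁻¹) σ : ℂˣ) : ℂ) * (r' / c ⟨E, lin (conj σ χ)⁻¹⟩) := by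
  have hfin : Finite (G E) := inferInstanceAs (Finite (E.L ≃ₐ[E.K] E.L))
  obtain ⟨Λ, hΛ, h0⟩ := hΦ.iso
  have e1 := det_reg hΛ h0 hr
  have e2 := det_reg hΛ h0 hr'
  have h1 : IsChr (lin χ⁻¹) := isChr_lin χ⁻¹
  have h2 : IsChar (G := E.L ≃ₐ[E.K] E.L) (lin χ⁻¹) := isChr_iff.mp h1
  have h3 : lin (conj σ χ)⁻¹ = fun g => σ (lin χ⁻¹ g) := by
    rw [conj_inv]
    rfl
  have h4 : IsChr (fun g => σ (lin χ⁻¹ g)) := by
    rw [← h3]
    exact isChr_lin _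
  have e3 : IsRg (S.sys.rep E.K E.L) Λ (fun g => σ (lin χ⁻¹ g)) r' := by
    have e4 := e2
    rw [h3] at e4
    exact e4
  have h5 := S.sys.sval_spec (c := leadInvAt hc) (σ := σ) h2 Λ hΛ r r' e1 e3
  have h6 : (((leadInvAt hc).val E.K E.L (lin χ⁻¹) : ℂˣ) : ℂ) = c ⟨E, lin χ⁻¹⟩ :=
    leadInvAt_val hc h1
  have h7 : (((leadInvAt hc).val E.K E.L (fun g => σ (lin χ⁻¹ g)) : ℂˣ) : ℂ)
      = c ⟨E, fun g => σ (lin χ⁻¹ g)⟩ := leadInvAt_val hc h4
  refine ⟨S.sys.rg_ne hΛ e1, S.sys.rg_ne hΛ e2, ?_⟩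
  rw [h6, h7] at h5
  rw [h3]
  exact h5

include hc in
lemma c_ne (χ : G E →* ℂˣ) : c ⟨E, lin χ⟩ ≠ 0 := hc.ne (isChr_lin χ)

/-- **From the equality to the defects.** -/
theorem pow_of_equality {n : ℕ} (h : Equality S c n E) (ψ : G E →* ℂˣ) :
    (allInv S hc).val E.K E.L (lin ψ) ^ n = 1 := by
  classical
  have hfin : Finite (G E) := inferInstanceAs (Finite (E.L ≃ₐ[E.K] E.L))
  have hft : Fintype (G E) := Fintype.ofFinite _
  obtain ⟨Φ, hΦ⟩ := exists_regMap S E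
  obtain ⟨x, hx⟩ := h Φ hΦ
  obtain ⟨Λ, hΛ, h0⟩ := hΦ.iso
  funext σ
  rw [Pi.pow_apply, Pi.one_apply]
  obtain ⟨χ, rfl⟩ : ∃ χ : G E →* ℂˣ, ψ = χ⁻¹ := ⟨ψ⁻¹, (inv_inv ψ).symm⟩
  obtain ⟨r, hr⟩ := det_exists hΛ h0 χ
  obtain ⟨r', hr'⟩ := det_exists hΛ h0 (conj σ χ)
  obtain ⟨n1, n2, h1⟩ := key_rel hc hΦ σ χ hr hr'
  have h2 := hx χ r hr
  have h3 := hx (conj σ χ) r' hr'
  have c1 := c_ne hc (E := E) χ⁻¹
  have c2 := c_ne hc (E := E) (conj σ χ)⁻¹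
  rw [finsum_eq_sum_of_fintype] at h2 h3
  have h4 : σ (∑ g : G E, (x g : ℂ) * ((χ g : ℂˣ) : ℂ))
      = ∑ g : G E, (x g : ℂ) * ((conj σ χ g : ℂˣ) : ℂ) := by
    rw [map_sum]
    refine Finset.sum_congr rfl fun g _ => ?_
    rw [map_mul, map_ratCast, conj_apply]
  have h5 := congrArg σ h2
  rw [map_mul, h4, map_pow, map_pow] at h5
  set X := ∑ g : G E, (x g : ℂ) * ((conj σ χ g : ℂˣ) : ℂ) with hX
  have hXn : X ≠ 0 := by
    intro h6
    rw [h6, zero_mul] at h3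
    exact pow_ne_zero n c2 h3.symm
  have h6 : (r' / c ⟨E, lin (conj σ χ)⁻¹⟩) ^ n = X⁻¹ := by
    rw [div_pow, ← h3]
    have := pow_ne_zero n n2
    field_simp
  have h7 : (σ (r / c ⟨E, lin χ⁻¹⟩)) ^ n = X⁻¹ := by
    rw [map_div₀, div_pow, ← h5]
    have := pow_ne_zero n ((map_ne_zero σ).mpr n1)
    field_simp
  rw [h1, mul_pow, h6] at h7
  apply Units.ext
  rw [Units.val_pow_eq_pow_val, Units.val_one]
  exact mul_right_cancel₀ (inv_ne_zero hXn) (by rw [h7, one_mul])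

lemma finite_hom (G : Type) [Group G] [Finite G] : Finite (G →* ℂˣ) := by
  have : NeZero (Nat.card G) := ⟨Nat.card_pos.ne'⟩
  let f : (G →* ℂˣ) → (G → rootsOfUnity (Nat.card G) ℂ) := fun χ g =>
    ⟨χ g, by rw [mem_rootsOfUnity, ← map_pow, pow_card_eq_one', map_one]⟩
  refine Finite.of_injective f fun χ χ' h => ?_
  ext g
  have h1 := congrArg Subtype.val (congrFun h g)
  exact congrArg Units.val h1

/-- **From the defects to the equality.** -/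
theorem equality_of_pow {n : ℕ} (h : ∀ ψ : G E →* ℂˣ,
    (allInv S hc).val E.K E.L (lin ψ) ^ n = 1) : Equality S c n E := by
  classical
  have hfin : Finite (G E) := inferInstanceAs (Finite (E.L ≃ₐ[E.K] E.L))
  have hft : Fintype (G E) := Fintype.ofFinite _
  have hfh : Finite (G E →* ℂˣ) := finite_hom (G E)
  have hfh' : Fintype (G E →* ℂˣ) := Fintype.ofFinite _
  intro Φ hΦ
  obtain ⟨Λ, hΛ, h0⟩ := hΦ.iso
  choose r hr using fun χ => det_exists hΛ h0 χ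
  have hrn : ∀ χ, r χ ≠ 0 := fun χ => S.sys.rg_ne hΛ (det_reg hΛ h0 (hr χ))
  let a : (G E →* ℂˣ) → ℂ := fun χ => c ⟨E, lin χ⁻¹⟩ ^ n / r χ ^ n
  have ha : ∀ (σ : ℂ ≃+* ℂ) (χ : G E →* ℂˣ), σ (a χ) = a (conj σ χ) := by
    intro σ χ
    obtain ⟨n1, n2, h1⟩ := key_rel hc hΦ σ χ (hr χ) (hr (conj σ χ))
    have c1 := c_ne hc (E := E) χ⁻¹
    have c2 := c_ne hc (E := E) (conj σ χ)⁻¹
    have h2 := congrArg (· ^ n) h1
    simp only [mul_pow] at h2
    have h3 : (((allInv S hc).val E.K E.L (lin χ⁻¹) σ : ℂˣ) : ℂ) ^ n = 1 := by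
      have h4 := congrFun (h χ⁻¹) σ
      rw [Pi.pow_apply, Pi.one_apply] at h4
      rw [← Units.val_pow_eq_pow_val, h4, Units.val_one]
    rw [h3, one_mul] at h2
    have h5 : a χ = ((r χ / c ⟨E, lin χ⁻¹⟩) ^ n)⁻¹ := by
      change c ⟨E, lin χ⁻¹⟩ ^ n / r χ ^ n = _
      rw [div_pow, inv_div]
    have h6 : a (conj σ χ) = ((r (conj σ χ) / c ⟨E, lin (conj σ χ)⁻¹⟩) ^ n)⁻¹ := by
      change c ⟨E, lin (conj σ χ)⁻¹⟩ ^ n / r (conj σ χ) ^ n = _
      rw [div_pow, inv_div]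
    rw [h5, h6, map_inv₀, map_pow, h2]
  let y : G E → ℂ := fun g => (Fintype.card (G E) : ℂ)⁻¹ * ∑ χ : G E →* ℂˣ,
    a χ * ((χ g⁻¹ : ℂˣ) : ℂ)
  have hy : ∀ g, ∃ q : ℚ, y g = q := by
    intro g
    apply fixed_rat
    intro σ
    let e : (G E →* ℂˣ) ≃ (G E →* ℂˣ) :=
      { toFun := conj σ
        invFun := conj σ.symm
        left_inv := fun χ => by
          ext g
          rw [conj_apply, conj_apply, RingEquiv.symm_apply_apply]
        right_inv := fun χ => by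
          ext g
          rw [conj_apply, conj_apply, RingEquiv.apply_symm_apply] }
    change σ ((Fintype.card (G E) : ℂ)⁻¹ * ∑ χ : G E →* ℂˣ, a χ * ((χ g⁻¹ : ℂˣ) : ℂ)) = _
    rw [map_mul, map_inv₀, map_natCast, map_sum]
    change _ = (Fintype.card (G E) : ℂ)⁻¹ * ∑ χ : G E →* ℂˣ, a χ * ((χ g⁻¹ : ℂˣ) : ℂ)
    have h1 := Equiv.sum_comp e (fun χ : G E →* ℂˣ => a χ * ((χ g⁻¹ : ℂˣ) : ℂ))
    rw [← h1]
    congr 1
    refine Finset.sum_congr rfl fun χ _ => ?_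
    rw [map_mul, ha]
    rfl
  choose x hx using hy
  refine ⟨x, fun χ r' hr' => ?_⟩
  rw [← det_unique (hr χ) hr', finsum_eq_sum_of_fintype]
  have hcard : (Fintype.card (G E) : ℂ) ≠ 0 := by exact_mod_cast Fintype.card_ne_zero
  have h1 : ∑ g : G E, (x g : ℂ) * ((χ g : ℂˣ) : ℂ) = a χ := by
    have h2 : ∀ g : G E, (x g : ℂ) * ((χ g : ℂˣ) : ℂ)
        = (Fintype.card (G E) : ℂ)⁻¹ * ∑ χ' : G E →* ℂˣ,
          a χ' * (((χ * χ'⁻¹) g : ℂˣ) : ℂ) := by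
      intro g
      rw [← hx g]
      change ((Fintype.card (G E) : ℂ)⁻¹ * ∑ χ' : G E →* ℂˣ, a χ' * ((χ' g⁻¹ : ℂˣ) : ℂ))
        * ((χ g : ℂˣ) : ℂ) = _
      rw [mul_assoc, Finset.sum_mul]
      congr 1
      refine Finset.sum_congr rfl fun χ' _ => ?_
      rw [MonoidHom.mul_apply, Units.val_mul, MonoidHom.inv_apply, map_inv]
      ring
    rw [Finset.sum_congr rfl fun g _ => h2 g, ← Finset.mul_sum, Finset.sum_comm]
    have h3 : ∀ χ' : G E →* ℂˣ, ∑ g : G E, a χ' * (((χ * χ'⁻¹) g : ℂˣ) : ℂ)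
        = if χ' = χ then a χ' * (Fintype.card (G E) : ℂ) else 0 := by
      intro χ'
      rw [← Finset.mul_sum]
      have h4 := sum_hom_units ((Units.coeHom ℂ).comp (χ * χ'⁻¹))
      have h5 : (Units.coeHom ℂ).comp (χ * χ'⁻¹) = 1 ↔ χ' = χ := by
        constructor
        · intro h6
          have h7 : χ * χ'⁻¹ = 1 := by
            ext g
            exact DFunLike.congr_fun h6 g
          ext g
          have h8 := DFunLike.congr_fun h7 g
          rw [MonoidHom.mul_apply, MonoidHom.inv_apply, MonoidHom.one_apply,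
            mul_inv_eq_one] at h8
          rw [h8]
        · rintro rfl
          ext g
          simp
      have h6 : ∑ g : G E, (((χ * χ'⁻¹) g : ℂˣ) : ℂ)
          = ((if (Units.coeHom ℂ).comp (χ * χ'⁻¹) = 1 then Fintype.card (G E) else 0 : ℕ) : ℂ) := h4
      rw [h6]
      by_cases h7 : χ' = χ
      · rw [if_pos h7, if_pos (h5.mpr h7)]
      · rw [if_neg h7, if_neg (fun h8 => h7 (h5.mp h8))]
        simp
    rw [Finset.sum_congr rfl fun χ' _ => h3 χ', Finset.sum_ite_eq', if_pos (Finset.mem_univ _)]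
    field_simp
  rw [h1]
  change c ⟨E, lin χ⁻¹⟩ ^ n / r χ ^ n * r χ ^ n = _
  rw [div_mul_cancel₀ _ (pow_ne_zero n (hrn χ))]

end equality

end Pool.Agent.Run7.h375.BE
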