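import Mathlib
import Pool.Agent.Run7.h375.BE.Fin
import Pool.Agent.K4H77.SL.Def

/-!
# The hypotheses for the inductive invariants
-/

set_option autoImplicit false
set_option linter.unusedSectionVars false

namespace Pool.Agent.Run7.h375.BE

open NumberField NumberField.ComplexEmbedding Pool.Agent.K4H74.SK
open Pool.Agent.K4H74.ST (ArtinInvariant IsChar TrivOne lc)
open Pool.Agent.K4H77 Pool.Agent.K4H77.SL

variable {k : ℕ} {S : RegSystem k} {c : Pair → ℂ} (hc : IsLeadingAt (1 - (k : ℂ)) c)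

/-- `L / K` is abelian. -/
def Abelian (E : Ext) : Prop := ∀ g h : G E, g * h = h * g

lemma mem_decomp {E : Ext} {P : Ideal (𝓞 E.L)} (g : G E) :
    g ∈ decompGroup P ↔ (show E.L ≃ₐ[E.K] E.L from g) ∈ SL.decomp E.K P := by
  constructor
  · intro h x
    exact h x _ rfl
  · intro h x y hy
    have h1 : y = SL.gi (show E.L ≃ₐ[E.K] E.L from g) x := RingOfIntegers.ext hy
    rw [h1]
    exact h x

lemma mem_inertia {E : Ext} {P : Ideal (𝓞 E.L)} (g : G E) :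
    g ∈ inertiaGroup P ↔ (show E.L ≃ₐ[E.K] E.L from g) ∈ SL.inertia E.K P := by
  constructor
  · intro h x
    exact h x _ rfl
  · intro h x y hy
    have h1 : y = SL.gi (show E.L ≃ₐ[E.K] E.L from g) x := RingOfIntegers.ext hy
    rw [h1]
    exact h x

lemma cyclic_of_inj {E : Ext} {ψ : G E →* ℂˣ} (hψ : Function.Injective ψ) : IsCyclic (G E) := by
  have hfin : Finite (G E) := inferInstanceAs (Finite (E.L ≃ₐ[E.K] E.L))
  exact isCyclic_of_injective_ringHom ((Units.coeHom ℂ).comp ψ)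
    (fun x y h => hψ (Units.ext h))

lemma Abelian.of_cyclic {E : Ext} (h : IsCyclic (G E)) : Abelian E := fun x y =>
  (IsCyclic.commGroup (α := G E)).mul_comm x y

/-- the trivial characters -/
lemma allInv_one (hB : ∀ E : Ext, (∀ g : G E, g = 1) → Equality S c 1 E) :
    TrivOne (allInv S hc) := by
  intro K _ _
  have h1 : (fun _ : K ≃ₐ[K] K => (1 : ℂ)) = lin (E := ⟨K, K⟩) 1 := by
    funext g
    simp [lin]
  rw [h1]
  have h2 := pow_of_equality hc (hB ⟨K, K⟩ fun g => AlgEquiv.ext fun x =>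
    (show K ≃ₐ[K] K from g).commutes x) 1
  rwa [pow_one] at h2

lemma exists_cc {E : Ext} (hK : IsTotallyReal E.K) (τ : E.L →+* ℂ) :
    ∃ t : G E, conjugate τ = τ.comp (emb t) := by
  have h1 : τ.comp (algebraMap E.K E.L) = (conjugate τ).comp (algebraMap E.K E.L) := by
    have h2 := IsTotallyReal.complexEmbedding_isReal (τ.comp (algebraMap E.K E.L))
    exact h2.symm
  obtain ⟨σ, hσ⟩ := exists_comp_symm_eq_of_comp_eq (k := E.K) τ (conjugate τ) h1
  exact ⟨σ.symm, hσ.symm⟩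

/-- in the critical case the component is zero -/
lemma eig_bot {E : Ext} (hk : 1 ≤ k) (hK : IsTotallyReal E.K) {χ : G E →* ℂˣ}
    (hχ : ∀ t : G E, IsCC t → ((χ t : ℂˣ) : ℂ) = (-1) ^ k) : Eig k χ = ⊥ := by
  rw [eq_bot_iff]
  rintro a ⟨h1, h2⟩
  rw [Submodule.mem_bot]
  funext τ
  obtain ⟨t, ht⟩ := exists_cc hK τ
  have h3 := h1 τ
  have h4 : a (τ.comp (emb t)) = ((χ t : ℂˣ) : ℂ) * a τ := congrFun (h2 t) τ
  have h5 : IsCC t := ⟨τ, fun x => by
    have h6 := RingHom.congr_fun ht x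
    exact h6.symm⟩
  rw [ht, h4, hχ t h5] at h3
  obtain ⟨j, rfl⟩ : ∃ j, k = j + 1 := ⟨k - 1, by omega⟩
  rw [Nat.add_sub_cancel, pow_succ] at h3
  rcases neg_one_pow_eq_or ℂ j with h6 | h6
  · rw [h6] at h3
    have : a τ = 0 := by linear_combination (-1 / 2 : ℂ) * h3
    exact this
  · rw [h6] at h3
    have : a τ = 0 := by linear_combination (1 / 2 : ℂ) * h3
    exact this

lemma det_bot {E : Ext} {W : Submodule ℂ (V E.L)} (hW : W = ⊥) {f : V E.L → V E.L} {r : ℂ}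
    (h : IsDetOn W f r) : r = 1 := by
  obtain ⟨T, -, rfl⟩ := h
  subst hW
  have h1 : T = LinearMap.id := by
    apply LinearMap.ext
    intro x
    exact Subsingleton.elim _ _
  rw [h1, LinearMap.det_id]

/-- the critical characters of the totally real fields -/
lemma allInv_crit (hk : 1 ≤ k) (hSK : SiegelKlingen k c) :
    TrivCrit (allInv S hc) ((-1) ^ k) := by
  intro K L _ _ _ _ _ _ hK ψ hψ
  change (allInv S hc).val (Ext.mk K L).K (Ext.mk K L).L (lin (E := ⟨K, L⟩) ψ) = 1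
  have hcc : ∀ t : G ⟨K, L⟩, IsCC t → ψ t = (-1) ^ k := by
    rintro t ⟨φ, hφ⟩
    exact hψ φ t (RingHom.ext fun x => (hφ x).symm)
  obtain ⟨Φ, hΦ⟩ := exists_regMap S ⟨K, L⟩
  obtain ⟨Λ, hΛ, h0⟩ := hΦ.iso
  funext σ
  let ψ' : G ⟨K, L⟩ →* ℂˣ := ψ
  let χ : G ⟨K, L⟩ →* ℂˣ := ψ'⁻¹
  have hχ : χ⁻¹ = ψ' := inv_inv ψ'
  obtain ⟨r, hr⟩ := det_exists hΛ h0 χ
  obtain ⟨r', hr'⟩ := det_exists hΛ h0 (conj σ χ)
  have e1 : ∀ t : G ⟨K, L⟩, IsCC t → ((χ t : ℂˣ) : ℂ) = (-1) ^ k := by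
    intro t ht
    have h1 : χ t = (ψ t)⁻¹ := rfl
    rw [h1, hcc t ht, Units.val_inv_eq_inv_val, Units.val_pow_eq_pow_val, Units.val_neg,
      Units.val_one, ← inv_pow, inv_neg_one]
  have e2 : ∀ t : G ⟨K, L⟩, IsCC t → ((conj σ χ t : ℂˣ) : ℂ) = (-1) ^ k := by
    intro t ht
    rw [conj_apply, e1 t ht, map_pow, map_neg, map_one]
  have e3 := det_bot (eig_bot hk hK e1) hr
  have e4 := det_bot (eig_bot hk hK e2) hr'
  obtain ⟨-, -, h1⟩ := key_rel hc hΦ σ χ hr hr'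
  have h2 := hSK ⟨K, L⟩ ψ' hK hcc σ
  have h3 : lin (conj σ χ)⁻¹ = fun g => σ (lin ψ' g) := by
    rw [conj_inv, hχ]
    rfl
  have h4 : c ⟨⟨K, L⟩, lin (conj σ χ)⁻¹⟩ ≠ 0 := c_ne hc _
  rw [e3, e4, h3, hχ, map_div₀, map_one, h2] at h1
  rw [h3] at h4
  apply Units.ext
  rw [Pi.one_apply, Units.val_one]
  have h5 := mul_right_cancel₀ (one_div_ne_zero h4) ((one_mul _).trans h1)
  exact h5.symm

/-- unramified extensions, modulo torsion -/
lemma split_tors {m : ℕ} (h : ∀ E : Ext, UnramifiedSplit m E → ∃ n : ℕ, n ≠ 0 ∧ Equality S c n E) :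
    TrivSplitLin (mapInv (QuotientGroup.mk' (CommGroup.torsion ((ℂ ≃+* ℂ) → ℂˣ)))
      (allInv S hc)) m := by
  intro K L _ _ _ _ _ _ hK h1 h2 ψ hψ
  obtain ⟨n, hn, h3⟩ := h ⟨K, L⟩ ⟨hK, cyclic_of_inj (E := ⟨K, L⟩) hψ, fun P hP =>
    ⟨fun g hg => h1 P hP g ((mem_inertia g).mp hg),
      fun hm g hg => h2 P hP hm g ((mem_decomp g).mp hg)⟩⟩
  have h4 := pow_of_equality hc h3 ψ
  change QuotientGroup.mk' _ ((allInv S hc).val (Ext.mk K L).K (Ext.mk K L).L
    (lin (E := ⟨K, L⟩) ψ)) = 1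
  rw [QuotientGroup.mk'_apply, QuotientGroup.eq_one_iff]
  exact isOfFinOrder_iff_pow_eq_one.mpr ⟨n, Nat.pos_of_ne_zero hn, h4⟩

/-- extensions with inertia groups of prime power order -/
lemma ell_of {m : ℕ} (h : ∀ E : Ext, PrimePower m E → Equality S c 1 E) (l : ℕ) (hl : l.Prime) :
    Pool.Agent.Run7.h508.SQ.TrivEll (allInv S hc) m l 0 0 := by
  intro K L _ _ _ _ _ _ hK hr ψ hψ _
  have h1 := h ⟨K, L⟩ ⟨hK, cyclic_of_inj (E := ⟨K, L⟩) hψ, l, hl, fun P hP =>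
    ⟨fun g hg => ((hr P hP).1 g ((mem_inertia g).mp hg)).1,
      fun hm g hg => ((hr P hP).2 hm g ((mem_decomp g).mp hg)).1⟩⟩
  have h2 := pow_of_equality hc h1 ψ
  rw [pow_one] at h2
  exact h2

/-- the mixed extensions -/
lemma mix_of (h : ∀ E : Ext, Mixed k E → Equality S c 1 E) :
    TrivMix (allInv S hc) (-(-1) ^ k) := by
  intro K L _ _ _ _ _ _ hK hK' hl ψ hψ hcc
  have h1 := h ⟨K, L⟩ ⟨hK, hK', cyclic_of_inj (E := ⟨K, L⟩) hψ, hl, ?_⟩
  · have h2 := pow_of_equality hc h1 ψ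
    rw [pow_one] at h2
    exact h2
  · rintro t ⟨φ, hφ⟩
    have h2 : ψ t = -(-1) ^ k := hcc φ t (RingHom.ext fun x => (hφ x).symm)
    have h3 : t = 1 ↔ ψ t = 1 := ⟨fun h => by rw [h]; exact map_one ψ,
      fun h => hψ (h.trans (map_one ψ).symm)⟩
    rw [h3, h2]
    rcases Nat.even_or_odd k with h4 | h4
    · rw [h4.neg_one_pow]
      constructor
      · intro h5
        exfalso
        have h6 := congrArg Units.val h5
        rw [Units.val_neg, Units.val_one] at h6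
        norm_num at h6
      · intro h5
        exact absurd h4 (Nat.not_even_iff_odd.mpr h5)
    · rw [h4.neg_one_pow, neg_neg]
      exact ⟨fun _ => h4, fun _ => rfl⟩

end Pool.Agent.Run7.h375.BE
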