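import Mathlib
import Pool.Agent.Run7.h375.BE.TwT
import Pool.Agent.Run7.h508.SQ.Star

/-!
# The characters of the CM fields and of the totally real fields
-/

set_option autoImplicit false
set_option linter.unusedSectionVars false

namespace Pool.Agent.Run7.h375.BE

open NumberField NumberField.ComplexEmbedding Pool.Agent.R389 Pool.Agent.K4H74.ST
  Pool.Agent.K4H77.SL Pool.Agent.K4H34.ST Pool.Agent.K4H34.NC Pool.Agent.Run7.h508.SQ

variable {M : Type} [CommGroup M]

section par

variable {K L : Type} [Field K] [NumberField K] [Field L] [NumberField L] [Algebra K L]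
  [IsGalois K L]

lemma conj_exists (hK : IsTotallyReal K) (φ : L →+* ℂ) : ∃ c : L ≃ₐ[K] L, IsConj φ c :=
  exists_conj (IsTotallyReal.complexEmbedding_isReal (φ.comp (algebraMap K L)))

/-- a faithful character which is trivial at the complex conjugations -/
lemma real_of_inj (hK : IsTotallyReal K) {θ : (L ≃ₐ[K] L) →* ℂˣ} (hθ : Function.Injective θ)
    (h : ∀ (φ : L →+* ℂ) (c : L ≃ₐ[K] L), IsConj φ c → θ c = 1) : IsTotallyReal L := by
  constructor
  intro v
  rw [← InfinitePlace.mk_embedding v, InfinitePlace.isReal_mk_iff]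
  obtain ⟨c, hc⟩ := conj_exists hK v.embedding
  have h1 : c = 1 := hθ (by rw [h _ c hc, map_one])
  rw [h1] at hc
  exact isConj_one_iff.mp hc

/-- the even characters -/
theorem par_even {A : ArtinInvariant M} {m : ℕ} (hm : m ≠ 0) (hR : TrivOne A) (hO : TrivOdd A)
    (hTE : ∀ l : ℕ, l.Prime → TrivEll A m l 0 0) (hK : IsTotallyReal K)
    (ψ : (L ≃ₐ[K] L) →* ℂˣ)
    (h : ∀ (φ : L →+* ℂ) (c : L ≃ₐ[K] L), IsConj φ c → ψ c = 1) : A.val K L (lc ψ) = 1 := by
  obtain ⟨E, i1, i2, i3, i4, i5, i6, θ, hθ, hψ⟩ := lin_red K L ψ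
  have h1 : ψ = θ.comp (AlgEquiv.restrictNormalHom E) := by
    ext g
    rw [MonoidHom.comp_apply, hψ]
  have hE : IsTotallyReal E := by
    refine real_of_inj hK hθ fun φ c hc => ?_
    let φ' : L →+* ℂ := ComplexEmbedding.lift L φ
    obtain ⟨c', hc'⟩ := conj_exists hK φ'
    have h2 := isConj_res (L := E) hc'
    have h3 : φ'.comp (algebraMap E L) = φ := ComplexEmbedding.lift_comp_algebraMap L φ
    rw [h3] at h2
    have h4 : c = AlgEquiv.restrictNormalHom E c' := by
      ext x
      apply φ.injective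
      have h5 := RingHom.congr_fun hc x
      have h6 := RingHom.congr_fun h2 x
      exact h5.symm.trans h6
    rw [h4, hψ]
    exact h φ' c' hc'
  rw [h1, val_lin_res θ]
  exact gen_real hm hR hO (fun l _ hl => hTE l hl) K E hE (IsChar.lc θ)

end par

variable {A : ArtinInvariant M} {e : ℂˣ} {m : ℕ} (he : e = 1 ∨ e = -1) (hm : m ≠ 0)
  (hR : TrivOne A) (hC : TrivCrit A e) (hTE : ∀ l : ℕ, l.Prime → TrivEll A m l 0 0)

include he hm hR hC hTE in
/-- **The characters with parallel signature.** -/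
theorem all_par (K L : Type) [Field K] [NumberField K] [Field L] [NumberField L] [Algebra K L]
    [IsGalois K L] (hK : IsTotallyReal K) (ψ : (L ≃ₐ[K] L) →* ℂˣ)
    (hψ : ∀ c ∈ CC K L, ∀ c' ∈ CC K L, ψ c = ψ c') : A.val K L (lc ψ) = 1 := by
  let φ0 : L →+* ℂ := Classical.arbitrary _
  obtain ⟨c0, hc0⟩ := conj_exists (K := K) hK φ0
  have hall : ∀ (φ : L →+* ℂ) (c : L ≃ₐ[K] L), IsConj φ c → ψ c = ψ c0 := fun φ c hc =>
    hψ c ⟨φ, hc⟩ c0 ⟨φ0, hc0⟩
  have hsq : ψ c0 = 1 ∨ ψ c0 = -1 := by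
    have h1 : ψ c0 * ψ c0 = 1 := by rw [← map_mul, isConj_sq hc0, map_one]
    have h2 : ((ψ c0 : ℂˣ) : ℂ) * ((ψ c0 : ℂˣ) : ℂ) = 1 := by
      rw [← Units.val_mul, h1, Units.val_one]
    rcases mul_self_eq_one_iff.mp h2 with h | h
    · left; exact Units.ext h
    · right; exact Units.ext (by rw [h, Units.val_neg, Units.val_one])
  rcases he with rfl | rfl
  · rcases hsq with h | h
    · exact hC K L hK ψ fun φ c hc => (hall φ c hc).trans h
    · obtain ⟨N, i1, i2, i3, i4, i5, i6, hN⟩ := exists_ext K L {-1}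
      obtain ⟨j, hj⟩ := hN (-1) (by simp)
      rw [map_neg, map_one] at hj
      rw [← tw_tw A (IsChar.lc ψ) N hj, twc_lc]
      refine par_even hm (tw_one hR) (tw_odd hC) (fun l hl => tw_ell (hTE l hl)) hK _
        fun φ c hc => ?_
      rw [MonoidHom.mul_apply, sJ_cc hj ⟨φ, hc⟩, MonoidHom.comp_apply,
        hall _ _ (isConj_res (L := L) hc), h, neg_mul_neg, one_mul]
  · rcases hsq with h | h
    · exact par_even hm hR hC hTE hK ψ fun φ c hc => (hall φ c hc).trans h
    · exact hC K L hK ψ fun φ c hc => (hall φ c hc).trans h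

include he hm hR hC hTE in
/-- **The characters of the fields in a Galois extension of `ℚ` without quotients of order `4`.** -/
theorem all_star (K L : Type) [Field K] [NumberField K] [Field L] [NumberField L] [Algebra K L]
    [IsGalois K L] (N : Type) [Field N] [NumberField N] [IsGalois ℚ N] [Algebra L N]
    (hNo : NoC4 N) (hj : e = 1 → ∃ j : N, j * j = -1) {χ : (L ≃ₐ[K] L) → ℂ} (hχ : IsChar χ) :
    A.val K L χ = 1 := by
  rcases he with rfl | rfl
  · obtain ⟨j, hj⟩ := hj rfl
    let i1 : Algebra K N := ((algebraMap L N).comp (algebraMap K L)).toAlgebra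
    have i2 : IsScalarTower K L N := IsScalarTower.of_algebraMap_eq fun _ => rfl
    have i3 : IsGalois K N := IsGalois.tower_top_of_isGalois ℚ K N
    rw [← tw_tw A hχ N hj]
    exact gen_star hm (tw_one hR) (tw_odd hC) (Set.mem_univ 2)
      (fun l _ hl => tw_ell (hTE l hl)) K N N (fun l _ h => absurd (Set.mem_univ l) h)
      (isChar_twc hj hχ) hNo
  · exact gen_star hm hR hC (Set.mem_univ 2)
      (fun l _ hl => hTE l hl) K L N (fun l _ h => absurd (Set.mem_univ l) h) hχ hNo

end Pool.Agent.Run7.h375.BE
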